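import Mathlib

/-!
N381/LH (helper381, MP_0430e4_lc): characters on matrices over `F_2`.
-/

set_option autoImplicit false

namespace Pool.Agent.N381.LH

open Finset Matrix

/-- the sign of a bit -/
def sg (t : ZMod 2) : ℝ := if t = 0 then 1 else -1

@[simp] lemma sg_zero : sg 0 = 1 := if_pos rfl

lemma zmod2_cases (t : ZMod 2) : t = 0 ∨ t = 1 := by
  fin_cases t
  · exact Or.inl rfl
  · exact Or.inr rfl

lemma sg_one : sg 1 = -1 := by
  unfold sg
  rw [if_neg (by decide)]

lemma sg_add (a b : ZMod 2) : sg (a + b) = sg a * sg b := by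
  rcases zmod2_cases a with h | h <;> rcases zmod2_cases b with h' | h' <;> subst h <;> subst h'
  · simp
  · rw [zero_add, sg_zero, one_mul]
  · rw [add_zero, sg_zero, mul_one]
  · have : (1 : ZMod 2) + 1 = 0 := by decide
    rw [this, sg_one, sg_zero]
    norm_num

lemma sg_sum {ι : Type*} (s : Finset ι) (f : ι → ZMod 2) : sg (∑ i ∈ s, f i) = ∏ i ∈ s, sg (f i) := by
  classical
  induction s using Finset.induction_on with
  | empty => simp
  | insert a s ha ih => rw [Finset.sum_insert ha, Finset.prod_insert ha, sg_add, ih]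

lemma sg_abs (t : ZMod 2) : |sg t| = 1 := by
  rcases zmod2_cases t with h | h <;> subst h
  · simp
  · rw [sg_one]; norm_num

lemma sg_sq (t : ZMod 2) : sg t * sg t = 1 := by
  rcases zmod2_cases t with h | h <;> subst h
  · simp
  · rw [sg_one]; norm_num

section

variable {ι κ μ : Type*} [Fintype ι] [Fintype κ] [Fintype μ]

/-- the pairing of two matrices -/
def pr (X Y : Matrix ι κ (ZMod 2)) : ZMod 2 := ∑ i, ∑ j, X i j * Y i j

lemma pr_add_left (X X' Y : Matrix ι κ (ZMod 2)) : pr (X + X') Y = pr X Y + pr X' Y := by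
  unfold pr
  simp only [Matrix.add_apply, add_mul, Finset.sum_add_distrib]

lemma pr_comm (X Y : Matrix ι κ (ZMod 2)) : pr X Y = pr Y X := by
  unfold pr
  simp only [mul_comm]

lemma pr_add_right (X Y Y' : Matrix ι κ (ZMod 2)) : pr X (Y + Y') = pr X Y + pr X Y' := by
  rw [pr_comm, pr_add_left, pr_comm Y, pr_comm Y']

lemma pr_mul (B : Matrix ι μ (ZMod 2)) (G : Matrix μ κ (ZMod 2)) (Y : Matrix ι κ (ZMod 2)) :
    pr (B * G) Y = pr G (Bᵀ * Y) := by
  unfold pr
  simp only [Matrix.mul_apply, Finset.sum_mul, Finset.mul_sum, Matrix.transpose_apply]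
  calc ∑ i, ∑ j, ∑ m, B i m * G m j * Y i j = ∑ i, ∑ m, ∑ j, B i m * G m j * Y i j := by
        refine Finset.sum_congr rfl fun i _ => ?_
        rw [Finset.sum_comm]
    _ = ∑ m, ∑ i, ∑ j, B i m * G m j * Y i j := Finset.sum_comm
    _ = ∑ m, ∑ j, ∑ i, B i m * G m j * Y i j := by
        refine Finset.sum_congr rfl fun i _ => ?_
        rw [Finset.sum_comm]
    _ = _ := by
        refine Finset.sum_congr rfl fun m _ => Finset.sum_congr rfl fun j _ =>
          Finset.sum_congr rfl fun i _ => ?_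
        ring

/-- the character -/
def ch (X Y : Matrix ι κ (ZMod 2)) : ℝ := sg (pr X Y)

lemma ch_add_left (X X' Y : Matrix ι κ (ZMod 2)) : ch (X + X') Y = ch X Y * ch X' Y := by
  unfold ch
  rw [pr_add_left, sg_add]

lemma ch_add_right (X Y Y' : Matrix ι κ (ZMod 2)) : ch X (Y + Y') = ch X Y * ch X Y' := by
  unfold ch
  rw [pr_add_right, sg_add]

lemma ch_comm (X Y : Matrix ι κ (ZMod 2)) : ch X Y = ch Y X := by
  unfold ch
  rw [pr_comm]

lemma ch_abs (X Y : Matrix ι κ (ZMod 2)) : |ch X Y| = 1 := sg_abs _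

lemma ch_sq (X Y : Matrix ι κ (ZMod 2)) : ch X Y * ch X Y = 1 := sg_sq _

lemma ch_mul (B : Matrix ι μ (ZMod 2)) (G : Matrix μ κ (ZMod 2)) (Y : Matrix ι κ (ZMod 2)) :
    ch (B * G) Y = ch G (Bᵀ * Y) := by
  unfold ch
  rw [pr_mul]

@[simp] lemma ch_zero_left (Y : Matrix ι κ (ZMod 2)) : ch 0 Y = 1 := by
  unfold ch pr
  simp

@[simp] lemma ch_zero_right (Y : Matrix ι κ (ZMod 2)) : ch Y 0 = 1 := by
  rw [ch_comm, ch_zero_left]

lemma add_self (X : Matrix ι κ (ZMod 2)) : X + X = 0 := by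
  ext i j
  exact CharTwo.add_self_eq_zero _

lemma exists_ch (W : Matrix ι κ (ZMod 2)) (hW : W ≠ 0) : ∃ X, ch X W = -1 := by
  classical
  obtain ⟨i, j, hij⟩ : ∃ i j, W i j ≠ 0 := by
    by_contra h
    push Not at h
    exact hW (by ext i j; exact h i j)
  refine ⟨Matrix.single i j 1, ?_⟩
  have h1 : pr (Matrix.single i j (1 : ZMod 2)) W = W i j := by
    unfold pr
    rw [Finset.sum_eq_single i, Finset.sum_eq_single j]
    · simp
    · intro b _ hb
      rw [Matrix.single_apply_of_col_ne _ _ hb.symm, zero_mul]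
    · simp
    · intro b _ hb
      refine Finset.sum_eq_zero fun c _ => ?_
      rw [Matrix.single_apply_of_row_ne hb.symm, zero_mul]
    · simp
  unfold ch
  rw [h1, (zmod2_cases (W i j)).resolve_left hij, sg_one]

variable [DecidableEq ι] [DecidableEq κ]

/-- orthogonality -/
lemma sum_ch (W : Matrix ι κ (ZMod 2)) :
    ∑ X : Matrix ι κ (ZMod 2), ch X W =
      if W = 0 then (Fintype.card (Matrix ι κ (ZMod 2)) : ℝ) else 0 := by
  split_ifs with h
  · subst h
    simp
  · obtain ⟨X₀, hX₀⟩ := exists_ch W h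
    have h1 : ∑ X : Matrix ι κ (ZMod 2), ch X W = ∑ X : Matrix ι κ (ZMod 2), ch (X + X₀) W :=
      (Fintype.sum_equiv (Equiv.addRight X₀) (fun X => ch (X + X₀) W) (fun X => ch X W)
        (fun _ => rfl)).symm
    have h2 : ∑ X : Matrix ι κ (ZMod 2), ch (X + X₀) W = -∑ X : Matrix ι κ (ZMod 2), ch X W := by
      rw [← Finset.sum_neg_distrib]
      refine Finset.sum_congr rfl fun X _ => ?_
      rw [ch_add_left, hX₀]
      ring
    linarith

end

section formula

variable {ι κ μ : Type*} [Fintype ι] [Fintype κ] [Fintype μ] [DecidableEq ι] [DecidableEq κ]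
  [DecidableEq μ]

/-- the Fourier transform -/
noncomputable def ft (Φ : Matrix ι κ (ZMod 2) → ℝ) (m : Matrix ι κ (ZMod 2)) : ℝ :=
  ∑ x, Φ x * ch x m

/-- **The key formula.** If `b * D = 1` then the expectation of `χ_W(G) Φ(b * G)` is computed by the
Fourier transform of `Φ`. -/
lemma key (b : Matrix ι μ (ZMod 2)) (D : Matrix μ ι (ZMod 2)) (hD : b * D = 1)
    (W : Matrix μ κ (ZMod 2)) (Φ : Matrix ι κ (ZMod 2) → ℝ) :
    (Fintype.card (Matrix ι κ (ZMod 2)) : ℝ) *
      ∑ G : Matrix μ κ (ZMod 2), ch G W * Φ (b * G) =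
    if W = bᵀ * (Dᵀ * W) then
      (Fintype.card (Matrix μ κ (ZMod 2)) : ℝ) * ft Φ (Dᵀ * W) else 0 := by
  obtain ⟨m, hm⟩ : ∃ m, m = Dᵀ * W := ⟨_, rfl⟩
  have h1 : ∀ t : Matrix ι κ (ZMod 2), ∑ G : Matrix μ κ (ZMod 2), ch G W * Φ (b * G) =
      ∑ G : Matrix μ κ (ZMod 2), ch G W * (ch t m * Φ (b * G + t)) := by
    intro t
    have := (Fintype.sum_equiv (Equiv.addRight (D * t))
      (fun G => ch (G + D * t) W * Φ (b * (G + D * t))) (fun G => ch G W * Φ (b * G))
        (fun _ => rfl)).symm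
    rw [this]
    refine Finset.sum_congr rfl fun G _ => ?_
    rw [ch_add_left, Matrix.mul_add, ← Matrix.mul_assoc b D t, hD, Matrix.one_mul, ch_mul, ← hm]
    ring
  have h2 : (Fintype.card (Matrix ι κ (ZMod 2)) : ℝ) *
      ∑ G : Matrix μ κ (ZMod 2), ch G W * Φ (b * G) =
      ∑ t : Matrix ι κ (ZMod 2), ∑ G : Matrix μ κ (ZMod 2), ch G W * (ch t m * Φ (b * G + t)) := by
    rw [← Finset.sum_congr rfl fun t _ => h1 t, Finset.sum_const, nsmul_eq_mul, Finset.card_univ]
  have h3 : ∀ G : Matrix μ κ (ZMod 2), ∑ t : Matrix ι κ (ZMod 2), ch t m * Φ (b * G + t) =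
      ch (b * G) m * ft Φ m := by
    intro G
    have := (Fintype.sum_equiv (Equiv.addLeft (b * G))
      (fun t => ch (b * G + t) m * ch (b * G) m * Φ (b * G + t))
      (fun x => ch x m * ch (b * G) m * Φ x) (fun _ => rfl))
    calc ∑ t : Matrix ι κ (ZMod 2), ch t m * Φ (b * G + t) =
        ∑ t : Matrix ι κ (ZMod 2), ch (b * G + t) m * ch (b * G) m * Φ (b * G + t) := by
          refine Finset.sum_congr rfl fun t _ => ?_
          rw [ch_add_left]
          have := ch_sq (b * G) m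
          linear_combination (-(ch t m * Φ (b * G + t))) * this
      _ = _ := by
          rw [this]
          unfold ft
          rw [Finset.mul_sum]
          refine Finset.sum_congr rfl fun x _ => ?_
          ring
  rw [h2, Finset.sum_comm]
  have h4 : ∀ G : Matrix μ κ (ZMod 2), ∑ t : Matrix ι κ (ZMod 2),
      ch G W * (ch t m * Φ (b * G + t)) = ch G (W + bᵀ * m) * ft Φ m := by
    intro G
    rw [← Finset.mul_sum, h3, ch_mul, ch_add_right]
    ring
  rw [Finset.sum_congr rfl fun G _ => h4 G, ← Finset.sum_mul, sum_ch, ← hm]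
  have h5 : W + bᵀ * m = 0 ↔ W = bᵀ * m := by
    constructor
    · intro h
      calc W = W + (bᵀ * m + bᵀ * m) := by rw [add_self, add_zero]
        _ = (W + bᵀ * m) + bᵀ * m := by rw [add_assoc]
        _ = bᵀ * m := by rw [h, zero_add]
    · intro h
      rw [h, add_self]
  by_cases h : W = bᵀ * m
  · rw [if_pos (h5.2 h), if_pos h]
  · rw [if_neg (fun h' => h (h5.1 h')), if_neg h, zero_mul]

end formula

end Pool.Agent.N381.LH
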