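import Mathlib
import Pool.Agent.N381.LH.Basic

/-!
N381/LH (helper381, MP_0430e4_lc): the expansion of the Fourier transform of the pseudo-code.
-/

set_option autoImplicit false
set_option linter.unusedSectionVars false

namespace Pool.Agent.N381.LH

open Finset Matrix

lemma sum_le_of_cover {α β : Type*} [DecidableEq α] [DecidableEq β] (S : Finset α) (J : Finset β)
    (g : β → α) (F : α → ℝ) (hF : ∀ a, 0 ≤ F a) (h : ∀ a ∈ S, ∃ j ∈ J, g j = a) :
    ∑ a ∈ S, F a ≤ ∑ j ∈ J, F (g j) := by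
  rcases S.eq_empty_or_nonempty with hS | ⟨a₀, ha₀⟩
  · rw [hS, Finset.sum_empty]
    exact Finset.sum_nonneg fun _ _ => hF _
  have : Nonempty β := ⟨(h a₀ ha₀).choose⟩
  choose! j hj using h
  have hinj : Set.InjOn j S := by
    intro a ha a' ha' hh
    rw [← (hj a ha).2, ← (hj a' ha').2, hh]
  calc ∑ a ∈ S, F a = ∑ a ∈ S, F (g (j a)) := by
        refine Finset.sum_congr rfl fun a ha => ?_
        rw [(hj a ha).2]
    _ = ∑ b ∈ S.image j, F (g b) := by
        rw [Finset.sum_image hinj]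
    _ ≤ _ := by
        refine Finset.sum_le_sum_of_subset_of_nonneg ?_ fun _ _ _ => hF _
        intro b hb
        obtain ⟨a, ha, rfl⟩ := Finset.mem_image.1 hb
        exact (hj a ha).1

variable {n k l s : ℕ}

lemma card_mat (s n : ℕ) : (Fintype.card (Matrix (Fin s) (Fin n) (ZMod 2)) : ℝ) = ((2 : ℝ) ^ n) ^ s := by
  rw [← pow_mul, mul_comm n s]
  have : Fintype.card (Matrix (Fin s) (Fin n) (ZMod 2)) = 2 ^ (s * n) := by
    rw [Fintype.card_congr (Matrix.of : (Fin s → Fin n → ZMod 2) ≃ _).symm, Fintype.card_fun,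
      Fintype.card_fun, ZMod.card, Fintype.card_fin, Fintype.card_fin, ← pow_mul, mul_comm]
  rw [this]
  push_cast
  rfl

/-- the row space -/
def R (B : Matrix (Fin l) (Fin k) (ZMod 2)) : Finset (Fin k → ZMod 2) :=
  univ.image fun c : Fin l → ZMod 2 => c ᵥ* B

lemma mem_R {B : Matrix (Fin l) (Fin k) (ZMod 2)} {b : Fin k → ZMod 2} :
    b ∈ R B ↔ ∃ c : Fin l → ZMod 2, c ᵥ* B = b := by
  unfold R
  simp

/-- right inverses of independent rows -/
lemma exists_right_inv {s k : ℕ} (b : Matrix (Fin s) (Fin k) (ZMod 2))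
    (hb : LinearIndependent (ZMod 2) b.row) :
    ∃ D : Matrix (Fin k) (Fin s) (ZMod 2), b * D = 1 := by
  have h1 : Function.Injective (Matrix.vecMulLinear b) := by
    have := Matrix.vecMul_injective_iff.2 hb
    exact this
  obtain ⟨g, hg⟩ := LinearMap.exists_leftInverse_of_injective (Matrix.vecMulLinear b)
    (LinearMap.ker_eq_bot.2 h1)
  refine ⟨Matrix.of fun i j => g (Pi.single i 1) j, ?_⟩
  ext i j
  have h2 : g (b i) = Pi.single i 1 := by
    have h3 : Matrix.vecMulLinear b (Pi.single i 1) = b i := by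
      rw [Matrix.vecMulLinear_apply, Matrix.single_one_vecMul]
      rfl
    rw [← h3, ← LinearMap.comp_apply, hg, LinearMap.id_apply]
  have h4 : b i = ∑ m, b i m • (Pi.single m 1 : Fin k → ZMod 2) := by
    funext t
    simp [Finset.sum_apply, Pi.single_apply]
  rw [Matrix.mul_apply]
  have h5 : g (b i) j = ∑ m, b i m * g (Pi.single m 1) j := by
    conv_lhs => rw [h4]
    rw [map_sum, Finset.sum_apply]
    refine Finset.sum_congr rfl fun m _ => ?_
    rw [map_smul, Pi.smul_apply, smul_eq_mul]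
  simp only [Matrix.of_apply]
  rw [← h5, h2, Matrix.one_apply, Pi.single_apply]
  simp only [eq_comm]

/-- every nonempty finite set of nonzero vectors of a row space has coordinates -/
lemma exists_coord (B : Matrix (Fin l) (Fin k) (ZMod 2)) (A : Finset (Fin k → ZMod 2))
    (hA : A ⊆ (R B).erase 0) (hne : A.Nonempty) :
    ∃ s ∈ Icc 1 l, ∃ (b : Matrix (Fin s) (Fin k) (ZMod 2)) (A' : Finset (Fin s → ZMod 2)),
      (∃ D : Matrix (Fin k) (Fin s) (ZMod 2), b * D = 1) ∧ 0 ∉ A' ∧ (∀ i, Pi.single i 1 ∈ A') ∧ A'.image (fun a => a ᵥ* b) = A := by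
  classical
  obtain ⟨t, ht1, ht2, ht3⟩ := exists_linearIndependent (ZMod 2) (A : Set (Fin k → ZMod 2))
  have htf : t.Finite := A.finite_toSet.subset ht1
  obtain ⟨T, rfl⟩ := htf.exists_finset_coe
  obtain ⟨s, hs⟩ : ∃ s, s = T.card := ⟨_, rfl⟩
  let e : Fin s ≃ T := (Fintype.equivFinOfCardEq (by simp [hs])).symm
  obtain ⟨b, hb⟩ : ∃ b : Matrix (Fin s) (Fin k) (ZMod 2), b = Matrix.of fun i => (e i : Fin k → ZMod 2) :=
    ⟨_, rfl⟩
  have hli : LinearIndependent (ZMod 2) b.row := by
    have : b.row = (fun x : T => (x : Fin k → ZMod 2)) ∘ e := by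
      funext i
      rw [hb]
      rfl
    rw [this]
    exact ht3.comp e e.injective
  obtain ⟨D, hD⟩ := exists_right_inv b hli
  have hspan : ∀ x ∈ A, ∃ a : Fin s → ZMod 2, a ᵥ* b = x := by
    intro x hx
    have h1 : x ∈ Submodule.span (ZMod 2) (Set.range b.row) := by
      have h2 : Set.range b.row = (T : Set (Fin k → ZMod 2)) := by
        ext y
        constructor
        · rintro ⟨i, rfl⟩
          rw [hb]
          exact (e i).2
        · intro hy
          refine ⟨e.symm ⟨y, hy⟩, ?_⟩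
          rw [hb]
          change ((e (e.symm ⟨y, hy⟩) : T) : Fin k → ZMod 2) = y
          rw [e.apply_symm_apply]
      rw [h2, ht2]
      exact Submodule.subset_span hx
    obtain ⟨c, hc⟩ := (Submodule.mem_span_range_iff_exists_fun (ZMod 2)).1 h1
    refine ⟨c, ?_⟩
    rw [← hc]
    funext j
    simp [Matrix.vecMul, dotProduct, Finset.sum_apply]
  have hinj : ∀ a a' : Fin s → ZMod 2, a ᵥ* b = a' ᵥ* b → a = a' := by
    intro a a' h
    have h1 : (a ᵥ* b) ᵥ* D = (a' ᵥ* b) ᵥ* D := by rw [h]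
    rwa [Matrix.vecMul_vecMul, Matrix.vecMul_vecMul, hD, Matrix.vecMul_one, Matrix.vecMul_one] at h1
  have hrow : ∀ i, b.row i ∈ A := by
    intro i
    have : b.row i = (e i : Fin k → ZMod 2) := by rw [hb]; rfl
    rw [this]
    exact ht1 (e i).2
  have hs1 : 1 ≤ s := by
    rcases Nat.eq_zero_or_pos s with h | h
    · exfalso
      subst h
      obtain ⟨x, hx⟩ := hne
      obtain ⟨a, ha⟩ := hspan x hx
      have : x = 0 := by
        rw [← ha]
        funext j
        simp [Matrix.vecMul, dotProduct]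
      exact (Finset.mem_erase.1 (hA hx)).1 this
    · exact h
  have hs2 : s ≤ l := by
    have h1 : ∀ i, ∃ c : Fin l → ZMod 2, c ᵥ* B = b.row i := fun i =>
      mem_R.1 (Finset.mem_erase.1 (hA (hrow i))).2
    choose C hC using h1
    have h2 : (Matrix.of C) * (B * D) = 1 := by
      rw [← Matrix.mul_assoc]
      have : (Matrix.of C) * B = b := by
        ext i j
        have := congrFun (hC i) j
        rw [Matrix.mul_apply]
        exact this
      rw [this, hD]
    have h3 := Matrix.rank_mul_le_left (Matrix.of C) (B * D)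
    rw [h2, Matrix.rank_one, Fintype.card_fin] at h3
    have h4 := Matrix.rank_le_width (Matrix.of C)
    exact h3.trans h4
  refine ⟨s, Finset.mem_Icc.2 ⟨hs1, hs2⟩, b, univ.filter fun a => a ᵥ* b ∈ A, ⟨D, hD⟩, ?_, ?_, ?_⟩
  · intro h
    have h1 := (Finset.mem_filter.1 h).2
    rw [Matrix.zero_vecMul] at h1
    exact (Finset.mem_erase.1 (hA h1)).1 rfl
  · intro i
    rw [Finset.mem_filter]
    refine ⟨Finset.mem_univ _, ?_⟩
    rw [Matrix.single_one_vecMul]
    exact hrow i
  · ext x
    constructor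
    · intro hx
      obtain ⟨a, ha, rfl⟩ := Finset.mem_image.1 hx
      exact (Finset.mem_filter.1 ha).2
    · intro hx
      obtain ⟨a, ha⟩ := hspan x hx
      exact Finset.mem_image.2 ⟨a, Finset.mem_filter.2 ⟨Finset.mem_univ _, by rw [ha]; exact hx⟩, ha⟩

end Pool.Agent.N381.LH
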