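import Mathlib
import Pool.Agent.N381.LH.Expand

/-!
N381/LH (helper381, MP_0430e4_lc): the Fourier transform of the pseudo-code is close to its main
term.
-/

set_option autoImplicit false
set_option linter.unusedSectionVars false

namespace Pool.Agent.N381.LH

open Finset Matrix

variable {n k l s : ℕ}

/-- product of values at the combinations in `A` -/
noncomputable def Ph (u : (Fin n → ZMod 2) → ℝ) (A : Finset (Fin s → ZMod 2))
    (x : Matrix (Fin s) (Fin n) (ZMod 2)) : ℝ := ∏ a ∈ A, u (a ᵥ* x)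

/-- the weight -/
noncomputable def wt (u : (Fin n → ZMod 2) → ℝ) (B : Matrix (Fin l) (Fin k) (ZMod 2))
    (G : Matrix (Fin k) (Fin n) (ZMod 2)) : ℝ := ∏ b ∈ (R B).erase 0, (1 + u (b ᵥ* G))

/-- the number of `B` with `Bᵀ * Y = 0` -/
def M (k : ℕ) (Y : Matrix (Fin l) (Fin n) (ZMod 2)) : ℕ :=
  (univ.filter fun B : Matrix (Fin l) (Fin k) (ZMod 2) => Bᵀ * Y = 0).card

lemma count_le (b : Matrix (Fin s) (Fin k) (ZMod 2)) (D : Matrix (Fin k) (Fin s) (ZMod 2))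
    (Y : Matrix (Fin l) (Fin n) (ZMod 2)) :
    (univ.filter fun B : Matrix (Fin l) (Fin k) (ZMod 2) =>
      Bᵀ * Y = bᵀ * (Dᵀ * (Bᵀ * Y))).card ≤ M k Y * (2 ^ l) ^ s := by
  have h1 : Fintype.card (Matrix (Fin l) (Fin s) (ZMod 2)) = (2 ^ l) ^ s := by
    have := card_mat l s
    have h2 : ((2 : ℝ) ^ s) ^ l = (((2 ^ l) ^ s : ℕ) : ℝ) := by
      push_cast
      rw [← pow_mul, ← pow_mul, mul_comm]
    rw [h2] at this
    exact_mod_cast this
  rw [← h1, ← Finset.card_univ (α := Matrix (Fin l) (Fin s) (ZMod 2))]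
  unfold M
  rw [← Finset.card_product]
  refine Finset.card_le_card_of_injOn (fun B => (B + B * D * b, B * D)) ?_ ?_
  · intro B hB
    have hB' := (Finset.mem_filter.1 (Finset.mem_coe.1 hB)).2
    refine Finset.mem_coe.2 (Finset.mem_product.2 ⟨Finset.mem_filter.2 ⟨Finset.mem_univ _, ?_⟩,
      Finset.mem_univ _⟩)
    change (B + B * D * b)ᵀ * Y = 0
    rw [Matrix.transpose_add, Matrix.transpose_mul, Matrix.transpose_mul, Matrix.add_mul,
      Matrix.mul_assoc, Matrix.mul_assoc, ← hB']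
    exact add_self _
  · intro B _ B' _ h
    have h1 := (Prod.mk.inj h).1
    have h2 := (Prod.mk.inj h).2
    have h3 : B * D = B' * D := h2
    have h4 : B + B * D * b = B' + B' * D * b := h1
    rw [h3] at h4
    exact add_right_cancel h4

lemma Ph_image (u : (Fin n → ZMod 2) → ℝ) (b : Matrix (Fin s) (Fin k) (ZMod 2))
    (D : Matrix (Fin k) (Fin s) (ZMod 2)) (hD : b * D = 1) (A' : Finset (Fin s → ZMod 2))
    (G : Matrix (Fin k) (Fin n) (ZMod 2)) :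
    ∏ b' ∈ A'.image (fun a => a ᵥ* b), u (b' ᵥ* G) = Ph u A' (b * G) := by
  have hinj : ∀ a a' : Fin s → ZMod 2, a ᵥ* b = a' ᵥ* b → a = a' := by
    intro a a' h
    have h1 : (a ᵥ* b) ᵥ* D = (a' ᵥ* b) ᵥ* D := by rw [h]
    rwa [Matrix.vecMul_vecMul, Matrix.vecMul_vecMul, hD, Matrix.vecMul_one, Matrix.vecMul_one] at h1
  rw [Finset.prod_image fun a _ a' _ h => hinj a a' h]
  unfold Ph
  refine Finset.prod_congr rfl fun a _ => ?_
  rw [Matrix.vecMul_vecMul]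

/-- the terms of the expansion -/
noncomputable def EE (u : (Fin n → ZMod 2) → ℝ) (Y : Matrix (Fin l) (Fin n) (ZMod 2))
    (B : Matrix (Fin l) (Fin k) (ZMod 2)) (A : Finset (Fin k → ZMod 2)) : ℝ :=
  ∑ G : Matrix (Fin k) (Fin n) (ZMod 2), ch G (Bᵀ * Y) * ∏ b ∈ A, u (b ᵥ* G)

lemma EE_empty (u : (Fin n → ZMod 2) → ℝ) (Y : Matrix (Fin l) (Fin n) (ZMod 2))
    (B : Matrix (Fin l) (Fin k) (ZMod 2)) :
    EE u Y B ∅ = if Bᵀ * Y = 0 then ((2 : ℝ) ^ n) ^ k else 0 := by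
  unfold EE
  simp only [Finset.prod_empty, mul_one]
  rw [sum_ch, card_mat]

/-- the sum of one type of terms -/
lemma EE_sum_le (u : (Fin n → ZMod 2) → ℝ) (Y : Matrix (Fin l) (Fin n) (ZMod 2))
    (b : Matrix (Fin s) (Fin k) (ZMod 2)) (D : Matrix (Fin k) (Fin s) (ZMod 2)) (hD : b * D = 1)
    (A' : Finset (Fin s → ZMod 2)) (τ : ℝ) (hτ : ∀ m, |ft (Ph u A') m| ≤ τ) :
    ∑ B : Matrix (Fin l) (Fin k) (ZMod 2), |EE u Y B (A'.image fun a => a ᵥ* b)| ≤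
      ((2 : ℝ) ^ n) ^ k / (2 ^ n) ^ s * τ * (M k Y * (2 ^ l) ^ s) := by
  have hτ0 : 0 ≤ τ := (abs_nonneg _).trans (hτ 0)
  have hN : (0 : ℝ) < ((2 : ℝ) ^ n) ^ s := by positivity
  have h1 : ∀ B : Matrix (Fin l) (Fin k) (ZMod 2), |EE u Y B (A'.image fun a => a ᵥ* b)| ≤
      if Bᵀ * Y = bᵀ * (Dᵀ * (Bᵀ * Y)) then ((2 : ℝ) ^ n) ^ k / (2 ^ n) ^ s * τ else 0 := by
    intro B
    have h2 := key b D hD (Bᵀ * Y) (Ph u A')
    have h3 : EE u Y B (A'.image fun a => a ᵥ* b) =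
        ∑ G : Matrix (Fin k) (Fin n) (ZMod 2), ch G (Bᵀ * Y) * Ph u A' (b * G) := by
      unfold EE
      refine Finset.sum_congr rfl fun G _ => ?_
      rw [Ph_image u b D hD]
    rw [← h3, card_mat, card_mat] at h2
    split_ifs with h
    · rw [if_pos h] at h2
      have h4 : |((2 : ℝ) ^ n) ^ s * EE u Y B (A'.image fun a => a ᵥ* b)| ≤
          ((2 : ℝ) ^ n) ^ k * τ := by
        rw [h2, abs_mul, abs_of_pos (by positivity : (0 : ℝ) < ((2 : ℝ) ^ n) ^ k)]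
        exact mul_le_mul_of_nonneg_left (hτ _) (by positivity)
      rw [abs_mul, abs_of_pos hN] at h4
      rw [div_mul_eq_mul_div, le_div_iff₀ hN, mul_comm]
      exact h4
    · rw [if_neg h] at h2
      rw [(mul_eq_zero.1 h2).resolve_left hN.ne', abs_zero]
  refine (Finset.sum_le_sum fun B _ => h1 B).trans ?_
  rw [← Finset.sum_filter, Finset.sum_const, nsmul_eq_mul, mul_comm]
  refine mul_le_mul_of_nonneg_left ?_ (by positivity)
  have := count_le b D Y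
  exact_mod_cast this

/-- the condition on the types -/
def Cd (A : Finset (Fin s → ZMod 2)) : Prop := 0 ∉ A ∧ ∀ i, Pi.single i 1 ∈ A

open Classical in
/-- **The Fourier transform of the pseudo-code is close to its main term.** -/
theorem main (u : (Fin n → ZMod 2) → ℝ) (T : ℕ → ℝ)
    (hT : ∀ s ∈ Icc 1 l, ∃ τ : Finset (Fin s → ZMod 2) → ℝ,
      (∀ A, Cd A → ∀ m : Matrix (Fin s) (Fin n) (ZMod 2), |ft (Ph u A) m| ≤ τ A) ∧
      ∑ A, (if Cd A then τ A else 0) ≤ T s)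
    (Y : Matrix (Fin l) (Fin n) (ZMod 2)) :
    |∑ G : Matrix (Fin k) (Fin n) (ZMod 2), ∑ B : Matrix (Fin l) (Fin k) (ZMod 2),
      ch (B * G) Y * wt u B G - ((2 : ℝ) ^ n) ^ k * M k Y| ≤
      ((2 : ℝ) ^ n) ^ k * M k Y * ∑ s ∈ Icc 1 l, (2 ^ k * 2 ^ l / 2 ^ n) ^ s * T s := by
  choose! τ hτ1 hτ2 using hT
  have e1 : ∑ G : Matrix (Fin k) (Fin n) (ZMod 2), ∑ B : Matrix (Fin l) (Fin k) (ZMod 2),
      ch (B * G) Y * wt u B G =
      ∑ B : Matrix (Fin l) (Fin k) (ZMod 2), ∑ A ∈ ((R B).erase 0).powerset, EE u Y B A := by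
    rw [Finset.sum_comm]
    refine Finset.sum_congr rfl fun B _ => ?_
    unfold EE wt
    rw [Finset.sum_comm]
    refine Finset.sum_congr rfl fun G _ => ?_
    rw [Finset.prod_one_add, ch_mul, Finset.mul_sum]
  have e2 : ((2 : ℝ) ^ n) ^ k * M k Y =
      ∑ B : Matrix (Fin l) (Fin k) (ZMod 2), EE u Y B ∅ := by
    simp_rw [EE_empty]
    rw [← Finset.sum_filter, Finset.sum_const, nsmul_eq_mul, mul_comm]
    rfl
  rw [e1, e2, ← Finset.sum_sub_distrib]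
  have e3 : ∀ B : Matrix (Fin l) (Fin k) (ZMod 2),
      ∑ A ∈ ((R B).erase 0).powerset, EE u Y B A - EE u Y B ∅ =
      ∑ A ∈ ((R B).erase 0).powerset.erase ∅, EE u Y B A := by
    intro B
    rw [← Finset.sum_erase_add _ _ (Finset.empty_mem_powerset ((R B).erase 0))]
    ring
  rw [Finset.sum_congr rfl fun B _ => e3 B, ← e2]
  -- the cover
  let J : Finset (Σ s : ℕ, Matrix (Fin s) (Fin k) (ZMod 2) × Finset (Fin s → ZMod 2)) :=
    (Icc 1 l).sigma fun s => univ.filter fun p =>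
      (∃ D : Matrix (Fin k) (Fin s) (ZMod 2), p.1 * D = 1) ∧ Cd p.2
  let g : (Σ s : ℕ, Matrix (Fin s) (Fin k) (ZMod 2) × Finset (Fin s → ZMod 2)) →
    Finset (Fin k → ZMod 2) := fun j => j.2.2.image fun a => a ᵥ* j.2.1
  have h1 : ∀ B : Matrix (Fin l) (Fin k) (ZMod 2),
      |∑ A ∈ ((R B).erase 0).powerset.erase ∅, EE u Y B A| ≤ ∑ j ∈ J, |EE u Y B (g j)| := by
    intro B
    refine (Finset.abs_sum_le_sum_abs _ _).trans ?_
    refine sum_le_of_cover _ J g (fun A => |EE u Y B A|) (fun _ => abs_nonneg _) ?_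
    intro A hA
    obtain ⟨hA1, hA2⟩ := Finset.mem_erase.1 hA
    obtain ⟨s, hs, b, A', hD, h0, h1, h2⟩ := exists_coord B A (Finset.mem_powerset.1 hA2)
      (Finset.nonempty_iff_ne_empty.2 hA1)
    refine ⟨⟨s, b, A'⟩, Finset.mem_sigma.2 ⟨hs, Finset.mem_filter.2 ⟨Finset.mem_univ _, hD, h0, h1⟩⟩,
      h2⟩
  refine (Finset.abs_sum_le_sum_abs _ _).trans ((Finset.sum_le_sum fun B _ => h1 B).trans ?_)
  rw [Finset.sum_comm, Finset.sum_sigma, Finset.mul_sum]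
  refine Finset.sum_le_sum fun s hs => ?_
  have h2 : ∀ p ∈ univ.filter (fun p : Matrix (Fin s) (Fin k) (ZMod 2) × Finset (Fin s → ZMod 2) =>
      (∃ D : Matrix (Fin k) (Fin s) (ZMod 2), p.1 * D = 1) ∧ Cd p.2),
      ∑ B : Matrix (Fin l) (Fin k) (ZMod 2), |EE u Y B (g ⟨s, p⟩)| ≤
        if Cd p.2 then ((2 : ℝ) ^ n) ^ k / (2 ^ n) ^ s * τ s p.2 * (M k Y * (2 ^ l) ^ s) else 0 := by
    intro p hp
    obtain ⟨-, ⟨D, hD⟩, hC⟩ := Finset.mem_filter.1 hp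
    rw [if_pos hC]
    exact EE_sum_le u Y p.1 D hD p.2 (τ s p.2) (hτ1 s hs p.2 hC)
  refine (Finset.sum_le_sum h2).trans ?_
  have h3 : ∀ p : Matrix (Fin s) (Fin k) (ZMod 2) × Finset (Fin s → ZMod 2),
      0 ≤ if Cd p.2 then ((2 : ℝ) ^ n) ^ k / (2 ^ n) ^ s * τ s p.2 * (M k Y * (2 ^ l) ^ s) else 0 := by
    intro p
    split_ifs with hC
    · have : 0 ≤ τ s p.2 := (abs_nonneg _).trans (hτ1 s hs p.2 hC 0)
      positivity
    · exact le_rfl
  refine (Finset.sum_le_sum_of_subset_of_nonneg (Finset.filter_subset _ _)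
    fun p _ _ => h3 p).trans ?_
  rw [Fintype.sum_prod_type]
  simp only
  rw [Finset.sum_const, nsmul_eq_mul, Finset.card_univ, card_mat]
  have h4 : ∑ A : Finset (Fin s → ZMod 2),
      (if Cd A then ((2 : ℝ) ^ n) ^ k / (2 ^ n) ^ s * τ s A * (M k Y * (2 ^ l) ^ s) else 0) =
      ((2 : ℝ) ^ n) ^ k / (2 ^ n) ^ s * (M k Y * (2 ^ l) ^ s) *
        ∑ A : Finset (Fin s → ZMod 2), (if Cd A then τ s A else 0) := by
    rw [Finset.mul_sum]
    refine Finset.sum_congr rfl fun A _ => ?_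
    split_ifs <;> ring
  rw [h4]
  have h5 := hτ2 s hs
  calc ((2 : ℝ) ^ k) ^ s * (((2 : ℝ) ^ n) ^ k / (2 ^ n) ^ s * (M k Y * (2 ^ l) ^ s) *
        ∑ A : Finset (Fin s → ZMod 2), (if Cd A then τ s A else 0)) ≤
      ((2 : ℝ) ^ k) ^ s * (((2 : ℝ) ^ n) ^ k / (2 ^ n) ^ s * (M k Y * (2 ^ l) ^ s) * T s) := by
        gcongr
    _ = _ := by
        rw [div_pow, mul_pow]
        field_simp

end Pool.Agent.N381.LH
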