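import Mathlib
import Pool.Agent.N381.LH.Main

/-!
N381/LH (helper381, MP_0430e4_lc): feasible solutions of the hierarchy, validity,
submultiplicativity, and the pseudo-code.
-/

set_option autoImplicit false
set_option linter.unusedSectionVars false

namespace Pool.Agent.N381.LH

open Finset Matrix

variable {n k l s d : ℕ}

/-- feasible solutions -/
structure Fs (l n d : ℕ) (a : Matrix (Fin l) (Fin n) (ZMod 2) → ℝ) : Prop where
  zero : a 0 = 1
  nonneg : ∀ X, 0 ≤ a X
  dist : ∀ X, ∀ c : Fin l → ZMod 2, 0 < hammingNorm (c ᵥ* X) → hammingNorm (c ᵥ* X) < d → a X = 0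
  dual : ∀ Y, 0 ≤ ∑ X, a X * ch X Y

/-- the value of the program -/
noncomputable def V (l n d : ℕ) : ℝ :=
  sSup {v : ℝ | ∃ a : Matrix (Fin l) (Fin n) (ZMod 2) → ℝ, Fs l n d a ∧ v = ∑ X, a X}

lemma inv_ft (a : Matrix (Fin l) (Fin n) (ZMod 2) → ℝ) (X : Matrix (Fin l) (Fin n) (ZMod 2)) :
    ∑ Y, (∑ Z, a Z * ch Z Y) * ch X Y =
      (Fintype.card (Matrix (Fin l) (Fin n) (ZMod 2)) : ℝ) * a X := by
  have h1 : ∀ Y : Matrix (Fin l) (Fin n) (ZMod 2), (∑ Z, a Z * ch Z Y) * ch X Y =
      ∑ Z, a Z * ch Y (Z + X) := by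
    intro Y
    rw [Finset.sum_mul]
    refine Finset.sum_congr rfl fun Z _ => ?_
    rw [ch_add_right, ch_comm Z, ch_comm X]
    ring
  rw [Finset.sum_congr rfl fun Y _ => h1 Y, Finset.sum_comm]
  have h2 : ∀ Z : Matrix (Fin l) (Fin n) (ZMod 2), ∑ Y, a Z * ch Y (Z + X) =
      if Z = X then (Fintype.card (Matrix (Fin l) (Fin n) (ZMod 2)) : ℝ) * a X else 0 := by
    intro Z
    rw [← Finset.mul_sum, sum_ch]
    by_cases h : Z = X
    · subst h
      rw [if_pos (add_self Z), if_pos rfl, mul_comm]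
    · rw [if_neg, if_neg h, mul_zero]
      intro h'
      apply h
      calc Z = Z + (X + X) := by rw [add_self, add_zero]
        _ = (Z + X) + X := by rw [add_assoc]
        _ = X := by rw [h', zero_add]
  rw [Finset.sum_congr rfl fun Z _ => h2 Z, Finset.sum_ite_eq' , if_pos (Finset.mem_univ _)]

lemma Fs.le_one {a : Matrix (Fin l) (Fin n) (ZMod 2) → ℝ} (h : Fs l n d a)
    (X : Matrix (Fin l) (Fin n) (ZMod 2)) : a X ≤ 1 := by
  have hc : (0 : ℝ) < Fintype.card (Matrix (Fin l) (Fin n) (ZMod 2)) := by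
    exact_mod_cast Fintype.card_pos
  have h1 := inv_ft a X
  have h2 := inv_ft a 0
  rw [h.zero, mul_one] at h2
  have h3 : ∑ Y, (∑ Z, a Z * ch Z Y) * ch X Y ≤ ∑ Y, (∑ Z, a Z * ch Z Y) * ch 0 Y := by
    refine Finset.sum_le_sum fun Y _ => mul_le_mul_of_nonneg_left ?_ (h.dual Y)
    rw [ch_zero_left]
    exact (abs_le.1 (ch_abs X Y).le).2
  rw [h1, h2] at h3
  nlinarith

lemma V_bdd (l n d : ℕ) :
    BddAbove {v : ℝ | ∃ a : Matrix (Fin l) (Fin n) (ZMod 2) → ℝ, Fs l n d a ∧ v = ∑ X, a X} := by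
  refine ⟨Fintype.card (Matrix (Fin l) (Fin n) (ZMod 2)), ?_⟩
  rintro v ⟨a, ha, rfl⟩
  refine (Finset.sum_le_sum fun X _ => ha.le_one X).trans ?_
  simp

lemma le_V {a : Matrix (Fin l) (Fin n) (ZMod 2) → ℝ} (ha : Fs l n d a) : ∑ X, a X ≤ V l n d :=
  le_csSup (V_bdd l n d) ⟨a, ha, rfl⟩

lemma Fs_delta (l n d : ℕ) : Fs l n d (fun X => if X = 0 then 1 else 0) := by
  refine ⟨if_pos rfl, fun X => by positivity, fun X c h0 _ => ?_, fun Y => ?_⟩
  · rw [if_neg]
    rintro rfl
    rw [Matrix.vecMul_zero, hammingNorm_zero] at h0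
    exact lt_irrefl _ h0
  · simp

lemma V_nonneg (l n d : ℕ) : 0 ≤ V l n d := by
  have := le_V (Fs_delta l n d)
  simp at this
  linarith

/-- the empty level -/
lemma V_ge_one (l n d : ℕ) : 1 ≤ V l n d := by
  have := le_V (Fs_delta l n d)
  simpa using this

/-- **Validity.** -/
lemma code_le (C : Submodule (ZMod 2) (Fin n → ZMod 2))
    (hC : ∀ x ∈ C, x ≠ 0 → d ≤ hammingNorm x) : ((Nat.card C : ℝ)) ^ l ≤ V l n d := by
  classical
  let a : Matrix (Fin l) (Fin n) (ZMod 2) → ℝ := fun X => if ∀ i, X i ∈ C then 1 else 0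
  have hfilter : ∀ Y : Matrix (Fin l) (Fin n) (ZMod 2), ∑ X, a X * ch X Y =
      ∑ x : Fin l → C, ch (Matrix.of fun i => ((x i : C) : Fin n → ZMod 2)) Y := by
    intro Y
    have h1 : ∑ X, a X * ch X Y = ∑ X ∈ univ.filter (fun X : Matrix (Fin l) (Fin n) (ZMod 2) =>
        ∀ i, X i ∈ C), ch X Y := by
      rw [Finset.sum_filter]
      refine Finset.sum_congr rfl fun X _ => ?_
      change (if ∀ i, X i ∈ C then (1 : ℝ) else 0) * ch X Y = _
      split_ifs <;> simp
    rw [h1]
    refine (Finset.sum_bij (fun (x : Fin l → C) _ =>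
      (Matrix.of fun i => ((x i : C) : Fin n → ZMod 2))) ?_ ?_ ?_ ?_).symm
    · intro x _
      rw [Finset.mem_filter]
      exact ⟨Finset.mem_univ _, fun i => (x i).2⟩
    · intro x _ y _ h
      funext i
      apply Subtype.ext
      exact congrFun h i
    · intro X hX
      rw [Finset.mem_filter] at hX
      exact ⟨fun i => ⟨X i, hX.2 i⟩, Finset.mem_univ _, rfl⟩
    · intro x _
      rfl
  have ha : Fs l n d a := by
    refine ⟨if_pos fun i => C.zero_mem, fun X => ?_, fun X c h0 h1 => ?_, fun Y => ?_⟩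
    · change 0 ≤ if ∀ i, X i ∈ C then (1 : ℝ) else 0
      split_ifs <;> norm_num
    · refine if_neg fun h => ?_
      have h2 : c ᵥ* X ∈ C := by
        rw [Matrix.vecMul_eq_sum]
        exact C.sum_mem fun i _ => C.smul_mem _ (h i)
      have h3 := hC _ h2 (hammingNorm_pos_iff.1 h0)
      omega
    · rw [hfilter]
      -- a sum of a character over a group
      by_cases h : ∀ x : Fin l → C, ch (Matrix.of fun i => ((x i : C) : Fin n → ZMod 2)) Y = 1
      · exact Finset.sum_nonneg fun x _ => by rw [h x]; norm_num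
      · push Not at h
        obtain ⟨x₀, hx₀⟩ := h
        have hx₁ : ch (Matrix.of fun i => ((x₀ i : C) : Fin n → ZMod 2)) Y = -1 := by
          unfold ch at hx₀ ⊢
          rcases zmod2_cases (pr (Matrix.of fun i => ((x₀ i : C) : Fin n → ZMod 2)) Y) with h | h
          · rw [h] at hx₀
            exact absurd sg_zero hx₀
          · rw [h, sg_one]
        have h1 : ∑ x : Fin l → C, ch (Matrix.of fun i => ((x i : C) : Fin n → ZMod 2)) Y =
            ∑ x : Fin l → C, ch (Matrix.of fun i => (((x + x₀) i : C) : Fin n → ZMod 2)) Y :=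
          (Fintype.sum_equiv (Equiv.addRight x₀) (fun x : Fin l → C =>
            ch (Matrix.of fun i => (((x + x₀) i : C) : Fin n → ZMod 2)) Y) (fun x : Fin l → C =>
            ch (Matrix.of fun i => ((x i : C) : Fin n → ZMod 2)) Y) (fun _ => rfl)).symm
        have h2 : ∑ x : Fin l → C, ch (Matrix.of fun i => (((x + x₀) i : C) : Fin n → ZMod 2)) Y =
            -∑ x : Fin l → C, ch (Matrix.of fun i => ((x i : C) : Fin n → ZMod 2)) Y := by
          rw [← Finset.sum_neg_distrib]
          refine Finset.sum_congr rfl fun x _ => ?_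
          have h3 : (Matrix.of fun i => (((x + x₀) i : C) : Fin n → ZMod 2)) =
              (Matrix.of fun i => ((x i : C) : Fin n → ZMod 2)) +
                (Matrix.of fun i => ((x₀ i : C) : Fin n → ZMod 2)) := by
            ext i j
            rfl
          rw [h3, ch_add_left, hx₁]
          ring
        have h4 : ∑ x : Fin l → C, ch (Matrix.of fun i => ((x i : C) : Fin n → ZMod 2)) Y = 0 := by
          linarith
        rw [h4]
  refine le_trans (le_of_eq ?_) (le_V ha)
  have h5 := hfilter 0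
  simp only [ch_zero_right, mul_one, Finset.sum_const, Finset.card_univ, nsmul_eq_mul] at h5
  rw [h5, Fintype.card_fun, Fintype.card_fin, Nat.card_eq_fintype_card]
  push_cast
  rfl

end Pool.Agent.N381.LH
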