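import Mathlib
import Pool.Agent.N381.LH.Feas

/-!
N381/LH (helper381, MP_0430e4_lc): submultiplicativity of the values.
-/

set_option autoImplicit false
set_option linter.unusedSectionVars false

namespace Pool.Agent.N381.LH

open Finset Matrix

variable {n k l m s d : ℕ}

/-- stacking two matrices -/
def app (X : Matrix (Fin l) (Fin n) (ZMod 2)) (X' : Matrix (Fin m) (Fin n) (ZMod 2)) :
    Matrix (Fin (l + m)) (Fin n) (ZMod 2) := Matrix.of (Fin.append X X')

lemma app_left (X : Matrix (Fin l) (Fin n) (ZMod 2)) (X' : Matrix (Fin m) (Fin n) (ZMod 2))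
    (i : Fin l) (j : Fin n) : app X X' (Fin.castAdd m i) j = X i j :=
  congrFun (Fin.append_left (X : Fin l → (Fin n → ZMod 2)) (X' : Fin m → (Fin n → ZMod 2)) i) j

lemma app_right (X : Matrix (Fin l) (Fin n) (ZMod 2)) (X' : Matrix (Fin m) (Fin n) (ZMod 2))
    (i : Fin m) (j : Fin n) : app X X' (Fin.natAdd l i) j = X' i j :=
  congrFun (Fin.append_right (X : Fin l → (Fin n → ZMod 2)) (X' : Fin m → (Fin n → ZMod 2)) i) j

lemma pr_app (X Y : Matrix (Fin l) (Fin n) (ZMod 2)) (X' Y' : Matrix (Fin m) (Fin n) (ZMod 2)) :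
    pr (app X X') (app Y Y') = pr X Y + pr X' Y' := by
  unfold pr
  rw [Fin.sum_univ_add]
  simp only [app_left, app_right]

lemma ch_app (X Y : Matrix (Fin l) (Fin n) (ZMod 2)) (X' Y' : Matrix (Fin m) (Fin n) (ZMod 2)) :
    ch (app X X') (app Y Y') = ch X Y * ch X' Y' := by
  unfold ch
  rw [pr_app, sg_add]

lemma app_zero : app (0 : Matrix (Fin l) (Fin n) (ZMod 2)) (0 : Matrix (Fin m) (Fin n) (ZMod 2)) = 0 := by
  ext i j
  refine Fin.addCases (fun i => ?_) (fun i => ?_) i
  · rw [app_left]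
    rfl
  · rw [app_right]
    rfl

lemma vecMul_app (c : Fin l → ZMod 2) (c' : Fin m → ZMod 2) (X : Matrix (Fin l) (Fin n) (ZMod 2))
    (X' : Matrix (Fin m) (Fin n) (ZMod 2)) :
    Fin.append c c' ᵥ* app X X' = c ᵥ* X + c' ᵥ* X' := by
  funext j
  simp only [Matrix.vecMul, dotProduct, Pi.add_apply]
  rw [Fin.sum_univ_add]
  simp only [app_left, app_right, Fin.append_left, Fin.append_right]

lemma sum_app (F : Matrix (Fin (l + m)) (Fin n) (ZMod 2) → ℝ) :
    ∑ Z, F Z = ∑ X : Matrix (Fin l) (Fin n) (ZMod 2), ∑ X' : Matrix (Fin m) (Fin n) (ZMod 2),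
      F (app X X') := by
  rw [← Fintype.sum_prod_type' fun X X' => F (app X X')]
  refine (Fintype.sum_equiv ((Fin.appendEquiv (α := Fin n → ZMod 2) l m)) _ _ fun p => ?_).symm
  rfl

/-- **Submultiplicativity.** -/
theorem V_add_le : V (l + m) n d ≤ V l n d * V m n d := by
  refine csSup_le ⟨_, _, Fs_delta _ _ _, rfl⟩ ?_
  rintro v ⟨a, ha, rfl⟩
  have hNl : (0 : ℝ) < Fintype.card (Matrix (Fin l) (Fin n) (ZMod 2)) := by
    exact_mod_cast Fintype.card_pos
  -- the second factor
  have h1 : Fs m n d (fun X' => a (app 0 X')) := by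
    refine ⟨?_, fun X' => ha.nonneg _, fun X' c h0 h1 => ?_, fun Y' => ?_⟩
    · rw [app_zero, ha.zero]
    · refine ha.dist _ (Fin.append 0 c) ?_ ?_
      · rwa [vecMul_app, Matrix.zero_vecMul, zero_add]
      · rwa [vecMul_app, Matrix.zero_vecMul, zero_add]
    · have h2 : 0 ≤ ∑ Y : Matrix (Fin l) (Fin n) (ZMod 2), ∑ Z, a Z * ch Z (app Y Y') :=
        Finset.sum_nonneg fun Y _ => ha.dual _
      have h3 : ∑ Y : Matrix (Fin l) (Fin n) (ZMod 2), ∑ Z, a Z * ch Z (app Y Y') =
          (Fintype.card (Matrix (Fin l) (Fin n) (ZMod 2)) : ℝ) *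
            ∑ X', a (app 0 X') * ch X' Y' := by
        have h4 : ∀ Y : Matrix (Fin l) (Fin n) (ZMod 2), ∑ Z, a Z * ch Z (app Y Y') =
            ∑ X : Matrix (Fin l) (Fin n) (ZMod 2), ∑ X' : Matrix (Fin m) (Fin n) (ZMod 2),
              a (app X X') * ch X' Y' * ch Y X := by
          intro Y
          rw [sum_app]
          refine Finset.sum_congr rfl fun X _ => Finset.sum_congr rfl fun X' _ => ?_
          rw [ch_app, ch_comm X Y]
          ring
        rw [Finset.sum_congr rfl fun Y _ => h4 Y, Finset.sum_comm]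
        have h5 : ∀ X : Matrix (Fin l) (Fin n) (ZMod 2),
            ∑ Y : Matrix (Fin l) (Fin n) (ZMod 2), ∑ X' : Matrix (Fin m) (Fin n) (ZMod 2),
              a (app X X') * ch X' Y' * ch Y X =
            if X = 0 then (Fintype.card (Matrix (Fin l) (Fin n) (ZMod 2)) : ℝ) *
              ∑ X', a (app 0 X') * ch X' Y' else 0 := by
          intro X
          rw [Finset.sum_comm]
          have h6 : ∀ X' : Matrix (Fin m) (Fin n) (ZMod 2),
              ∑ Y : Matrix (Fin l) (Fin n) (ZMod 2), a (app X X') * ch X' Y' * ch Y X =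
              a (app X X') * ch X' Y' *
                if X = 0 then (Fintype.card (Matrix (Fin l) (Fin n) (ZMod 2)) : ℝ) else 0 := by
            intro X'
            rw [← Finset.mul_sum, sum_ch]
          rw [Finset.sum_congr rfl fun X' _ => h6 X']
          split_ifs with h
          · subst h
            rw [Finset.mul_sum]
            exact Finset.sum_congr rfl fun X' _ => mul_comm _ _
          · simp
        rw [Finset.sum_congr rfl fun X _ => h5 X, Finset.sum_ite_eq', if_pos (Finset.mem_univ _)]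
      rw [h3] at h2
      exact nonneg_of_mul_nonneg_right h2 hNl
  obtain ⟨c₀, hc₀⟩ : ∃ c₀, c₀ = ∑ X', a (app (0 : Matrix (Fin l) (Fin n) (ZMod 2)) X') := ⟨_, rfl⟩
  have hc1 : 1 ≤ c₀ := by
    have h2 := Finset.single_le_sum (fun X' _ => ha.nonneg (app (0 : Matrix (Fin l) (Fin n) (ZMod 2)) X'))
      (Finset.mem_univ (0 : Matrix (Fin m) (Fin n) (ZMod 2)))
    simp only [app_zero, ha.zero] at h2
    rw [hc₀]
    exact h2
  have hc2 : c₀ ≤ V m n d := by
    rw [hc₀]
    exact le_V h1
  have hc3 : 0 < c₀ := by linarith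
  -- the first factor
  have h2 : Fs l n d (fun X => (∑ X' : Matrix (Fin m) (Fin n) (ZMod 2), a (app X X')) / c₀) := by
    refine ⟨?_, fun X => ?_, fun X c h0 h1 => ?_, fun Y => ?_⟩
    ·
      rw [← hc₀, div_self hc3.ne']
    · exact div_nonneg (Finset.sum_nonneg fun X' _ => ha.nonneg _) hc3.le
    · have : ∑ X' : Matrix (Fin m) (Fin n) (ZMod 2), a (app X X') = 0 := by
        refine Finset.sum_eq_zero fun X' _ => ha.dist _ (Fin.append c 0) ?_ ?_
        · rwa [vecMul_app, Matrix.zero_vecMul, add_zero]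
        · rwa [vecMul_app, Matrix.zero_vecMul, add_zero]
      rw [this, zero_div]
    · have h3 := ha.dual (app Y 0)
      rw [sum_app] at h3
      have h4 : ∑ X, (∑ X' : Matrix (Fin m) (Fin n) (ZMod 2), a (app X X')) / c₀ * ch X Y =
          (∑ X : Matrix (Fin l) (Fin n) (ZMod 2), ∑ X' : Matrix (Fin m) (Fin n) (ZMod 2),
            a (app X X') * ch (app X X') (app Y 0)) / c₀ := by
        rw [Finset.sum_div]
        refine Finset.sum_congr rfl fun X _ => ?_
        rw [Finset.sum_div, Finset.sum_div, Finset.sum_mul]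
        refine Finset.sum_congr rfl fun X' _ => ?_
        rw [ch_app, ch_zero_right]
        ring
      rw [h4]
      exact div_nonneg h3 hc3.le
  have h3 := le_V h2
  rw [← Finset.sum_div, div_le_iff₀ hc3] at h3
  rw [sum_app]
  exact h3.trans (mul_le_mul_of_nonneg_left hc2 (V_nonneg _ _ _))

end Pool.Agent.N381.LH
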