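import Mathlib
import Pool.Agent.N381.LH.Sub

/-!
N381/LH (helper381, MP_0430e4_lc): the pseudo-code is feasible.
-/

set_option autoImplicit false
set_option linter.unusedSectionVars false

namespace Pool.Agent.N381.LH

open Finset Matrix

variable {n k l s d : ℕ}

/-- the pseudo-code, not normalised -/
noncomputable def f0 (k : ℕ) (u : (Fin n → ZMod 2) → ℝ) (X : Matrix (Fin l) (Fin n) (ZMod 2)) : ℝ :=
  ∑ G : Matrix (Fin k) (Fin n) (ZMod 2), ∑ B : Matrix (Fin l) (Fin k) (ZMod 2),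
    if B * G = X then wt u B G else 0

lemma f0_ft (u : (Fin n → ZMod 2) → ℝ) (Y : Matrix (Fin l) (Fin n) (ZMod 2)) :
    ∑ X, f0 k u X * ch X Y =
      ∑ G : Matrix (Fin k) (Fin n) (ZMod 2), ∑ B : Matrix (Fin l) (Fin k) (ZMod 2),
        ch (B * G) Y * wt u B G := by
  unfold f0
  simp_rw [Finset.sum_mul]
  rw [Finset.sum_comm]
  refine Finset.sum_congr rfl fun G _ => ?_
  rw [Finset.sum_comm]
  refine Finset.sum_congr rfl fun B _ => ?_
  simp only [ite_mul, zero_mul]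
  rw [Finset.sum_ite_eq, if_pos (Finset.mem_univ _)]
  ring

lemma wt_nonneg {u : (Fin n → ZMod 2) → ℝ} (hu1 : ∀ x, 0 ≤ 1 + u x)
    (B : Matrix (Fin l) (Fin k) (ZMod 2)) (G : Matrix (Fin k) (Fin n) (ZMod 2)) :
    0 ≤ wt u B G := Finset.prod_nonneg fun _ _ => hu1 _

lemma wt_of_mul_eq_zero {u : (Fin n → ZMod 2) → ℝ} (hu0 : u 0 = 0)
    (B : Matrix (Fin l) (Fin k) (ZMod 2)) (G : Matrix (Fin k) (Fin n) (ZMod 2)) (h : B * G = 0) :
    wt u B G = 1 := by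
  refine Finset.prod_eq_one fun b hb => ?_
  obtain ⟨c, rfl⟩ := mem_R.1 (Finset.mem_erase.1 hb).2
  rw [Matrix.vecMul_vecMul, h, Matrix.vecMul_zero, hu0, add_zero]

/-- the number of `G` with `B * G = 0` -/
def Nz (n : ℕ) (B : Matrix (Fin l) (Fin k) (ZMod 2)) : ℕ :=
  (univ.filter fun G : Matrix (Fin k) (Fin n) (ZMod 2) => B * G = 0).card

lemma Nz_indep (b : Matrix (Fin s) (Fin k) (ZMod 2)) (D : Matrix (Fin k) (Fin s) (ZMod 2))
    (hD : b * D = 1) : (Nz n b : ℝ) = ((2 : ℝ) ^ n) ^ k / (2 ^ n) ^ s := by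
  have h := key b D hD (0 : Matrix (Fin k) (Fin n) (ZMod 2)) (fun x => if x = 0 then (1 : ℝ) else 0)
  simp only [ch_zero_right, one_mul, Matrix.mul_zero, if_true] at h
  unfold ft at h
  simp only [ch_zero_right, mul_one, Finset.sum_ite_eq', Finset.mem_univ, if_true] at h
  rw [card_mat, card_mat] at h
  have hN : (0 : ℝ) < ((2 : ℝ) ^ n) ^ s := by positivity
  have h2 : (Nz n b : ℝ) = ∑ G : Matrix (Fin k) (Fin n) (ZMod 2), if b * G = 0 then (1 : ℝ) else 0 := by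
    unfold Nz
    rw [Finset.sum_boole]
  rw [h2, eq_div_iff hN.ne', mul_comm]
  exact h

/-- every nonzero `B` has coordinates -/
lemma exists_factor (B : Matrix (Fin l) (Fin k) (ZMod 2)) (hB : B ≠ 0) :
    ∃ s ∈ Icc 1 l, ∃ (b : Matrix (Fin s) (Fin k) (ZMod 2)) (C : Matrix (Fin l) (Fin s) (ZMod 2)),
      (∃ D : Matrix (Fin k) (Fin s) (ZMod 2), b * D = 1) ∧
      (∃ E : Matrix (Fin s) (Fin l) (ZMod 2), E * B = b) ∧ C * b = B := by
  classical
  have hrow : ∀ i, B i ∈ R B := fun i => mem_R.2 ⟨Pi.single i 1, Matrix.single_one_vecMul i B⟩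
  obtain ⟨i₀, hi₀⟩ : ∃ i, B i ≠ 0 := by
    by_contra h
    push Not at h
    exact hB (by ext i j; exact congrFun (h i) j)
  obtain ⟨s, hs, b, A', ⟨D, hD⟩, h0, h1, h2⟩ := exists_coord B ((univ.image fun i => B i).erase 0)
    (fun x hx => by
      obtain ⟨h3, h4⟩ := Finset.mem_erase.1 hx
      obtain ⟨i, _, rfl⟩ := Finset.mem_image.1 h4
      exact Finset.mem_erase.2 ⟨h3, hrow i⟩)
    ⟨B i₀, Finset.mem_erase.2 ⟨hi₀, Finset.mem_image.2 ⟨i₀, Finset.mem_univ _, rfl⟩⟩⟩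
  have h3 : ∀ i, ∃ c : Fin s → ZMod 2, c ᵥ* b = B i := by
    intro i
    by_cases hi : B i = 0
    · exact ⟨0, by rw [Matrix.zero_vecMul, hi]⟩
    · have h4 : B i ∈ A'.image fun a => a ᵥ* b := by
        rw [h2]
        exact Finset.mem_erase.2 ⟨hi, Finset.mem_image.2 ⟨i, Finset.mem_univ _, rfl⟩⟩
      obtain ⟨a, _, ha⟩ := Finset.mem_image.1 h4
      exact ⟨a, ha⟩
  have h5 : ∀ i, ∃ c : Fin l → ZMod 2, c ᵥ* B = b i := by
    intro i
    have h6 : b i ∈ A'.image fun a => a ᵥ* b :=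
      Finset.mem_image.2 ⟨_, h1 i, Matrix.single_one_vecMul i b⟩
    rw [h2] at h6
    obtain ⟨j, _, hj⟩ := Finset.mem_image.1 (Finset.mem_erase.1 h6).2
    exact ⟨Pi.single j 1, by rw [Matrix.single_one_vecMul]; exact hj⟩
  choose C hC using h3
  choose E hE using h5
  refine ⟨s, hs, b, Matrix.of C, ⟨D, hD⟩, ⟨Matrix.of E, ?_⟩, ?_⟩
  · ext i j
    exact congrFun (hE i) j
  · ext i j
    exact congrFun (hC i) j

lemma f0_zero_le {u : (Fin n → ZMod 2) → ℝ} (hu0 : u 0 = 0) :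
    f0 k u (0 : Matrix (Fin l) (Fin n) (ZMod 2)) ≤
      ((2 : ℝ) ^ n) ^ k * (1 + ∑ s ∈ Icc 1 l, (2 ^ k * 2 ^ l / 2 ^ n : ℝ) ^ s) := by
  classical
  have e1 : f0 k u (0 : Matrix (Fin l) (Fin n) (ZMod 2)) =
      ∑ B : Matrix (Fin l) (Fin k) (ZMod 2), (Nz n B : ℝ) := by
    unfold f0 Nz
    rw [Finset.sum_comm]
    refine Finset.sum_congr rfl fun B _ => ?_
    rw [← Finset.sum_boole]
    refine Finset.sum_congr rfl fun G _ => ?_
    by_cases h : B * G = 0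
    · rw [if_pos h, if_pos h, wt_of_mul_eq_zero hu0 B G h]
    · rw [if_neg h, if_neg h]
  rw [e1, ← Finset.add_sum_erase _ _ (Finset.mem_univ (0 : Matrix (Fin l) (Fin k) (ZMod 2)))]
  have h0 : (Nz n (0 : Matrix (Fin l) (Fin k) (ZMod 2)) : ℝ) = ((2 : ℝ) ^ n) ^ k := by
    unfold Nz
    simp only [Matrix.zero_mul, Finset.filter_true, Finset.card_univ]
    exact card_mat k n
  rw [h0, mul_add, mul_one]
  refine add_le_add le_rfl ?_
  let J : Finset (Σ s : ℕ, Matrix (Fin s) (Fin k) (ZMod 2) × Matrix (Fin l) (Fin s) (ZMod 2)) :=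
    (Icc 1 l).sigma fun s => univ.filter fun p =>
      (∃ D : Matrix (Fin k) (Fin s) (ZMod 2), p.1 * D = 1) ∧
        ∃ E : Matrix (Fin s) (Fin l) (ZMod 2), E * (p.2 * p.1) = p.1
  let g : (Σ s : ℕ, Matrix (Fin s) (Fin k) (ZMod 2) × Matrix (Fin l) (Fin s) (ZMod 2)) →
    Matrix (Fin l) (Fin k) (ZMod 2) := fun j => j.2.2 * j.2.1
  have h1 : ∑ B ∈ univ.erase (0 : Matrix (Fin l) (Fin k) (ZMod 2)), (Nz n B : ℝ) ≤
      ∑ j ∈ J, (Nz n (g j) : ℝ) := by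
    refine sum_le_of_cover _ J g (fun B => (Nz n B : ℝ)) (fun _ => Nat.cast_nonneg _) ?_
    intro B hB
    obtain ⟨s, hs, b, C, hD, ⟨E, hE⟩, hC⟩ := exists_factor B (Finset.ne_of_mem_erase hB)
    refine ⟨⟨s, b, C⟩, Finset.mem_sigma.2 ⟨hs, Finset.mem_filter.2 ⟨Finset.mem_univ _, hD, E, ?_⟩⟩,
      hC⟩
    change E * (C * b) = b
    rw [hC, hE]
  refine h1.trans ?_
  rw [Finset.sum_sigma, Finset.mul_sum]
  refine Finset.sum_le_sum fun s hs => ?_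
  have h2 : ∀ p ∈ univ.filter (fun p : Matrix (Fin s) (Fin k) (ZMod 2) ×
      Matrix (Fin l) (Fin s) (ZMod 2) => (∃ D : Matrix (Fin k) (Fin s) (ZMod 2), p.1 * D = 1) ∧
        ∃ E : Matrix (Fin s) (Fin l) (ZMod 2), E * (p.2 * p.1) = p.1),
      (Nz n (g ⟨s, p⟩) : ℝ) ≤ ((2 : ℝ) ^ n) ^ k / (2 ^ n) ^ s := by
    intro p hp
    obtain ⟨-, ⟨D, hD⟩, E, hE⟩ := Finset.mem_filter.1 hp
    rw [← Nz_indep p.1 D hD]
    unfold Nz
    refine Nat.cast_le.2 (Finset.card_le_card ?_)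
    intro G hG
    have hG' : p.2 * p.1 * G = 0 := (Finset.mem_filter.1 hG).2
    refine Finset.mem_filter.2 ⟨Finset.mem_univ _, ?_⟩
    rw [← hE, Matrix.mul_assoc, hG', Matrix.mul_zero]
  refine (Finset.sum_le_sum h2).trans ?_
  rw [Finset.sum_const, nsmul_eq_mul]
  have h3 : ((univ.filter (fun p : Matrix (Fin s) (Fin k) (ZMod 2) ×
      Matrix (Fin l) (Fin s) (ZMod 2) => (∃ D : Matrix (Fin k) (Fin s) (ZMod 2), p.1 * D = 1) ∧
        ∃ E : Matrix (Fin s) (Fin l) (ZMod 2), E * (p.2 * p.1) = p.1)).card : ℝ) ≤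
      ((2 : ℝ) ^ k) ^ s * ((2 : ℝ) ^ s) ^ l := by
    refine (Nat.cast_le.2 (Finset.card_le_univ _)).trans ?_
    rw [Fintype.card_prod]
    push_cast
    rw [card_mat, card_mat]
  refine (mul_le_mul_of_nonneg_right h3 (by positivity)).trans (le_of_eq ?_)
  have h4 : ((2 : ℝ) ^ s) ^ l = ((2 : ℝ) ^ l) ^ s := by
    rw [← pow_mul, ← pow_mul, mul_comm]
  rw [h4, div_pow, mul_pow]
  field_simp

lemma f0_zero_ge {u : (Fin n → ZMod 2) → ℝ} (hu1 : ∀ x, 0 ≤ 1 + u x) :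
    ((2 : ℝ) ^ n) ^ k ≤ f0 k u (0 : Matrix (Fin l) (Fin n) (ZMod 2)) := by
  unfold f0
  rw [← card_mat k n, ← nsmul_one, ← Finset.card_univ, ← Finset.sum_const]
  refine Finset.sum_le_sum fun G _ => ?_
  have h1 : (1 : ℝ) ≤ if (0 : Matrix (Fin l) (Fin k) (ZMod 2)) * G = 0 then
      wt u (0 : Matrix (Fin l) (Fin k) (ZMod 2)) G else 0 := by
    rw [if_pos (Matrix.zero_mul G)]
    unfold wt
    have : (R (0 : Matrix (Fin l) (Fin k) (ZMod 2))).erase 0 = ∅ := by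
      rw [Finset.eq_empty_iff_forall_notMem]
      intro x hx
      obtain ⟨h2, h3⟩ := Finset.mem_erase.1 hx
      obtain ⟨c, rfl⟩ := mem_R.1 h3
      exact h2 (Matrix.vecMul_zero c)
    rw [this, Finset.prod_empty]
  refine h1.trans (Finset.single_le_sum (f := fun B : Matrix (Fin l) (Fin k) (ZMod 2) =>
    if B * G = 0 then wt u B G else 0) (fun B _ => ?_) (Finset.mem_univ _))
  change 0 ≤ if B * G = 0 then wt u B G else 0
  split_ifs
  · exact wt_nonneg hu1 B G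
  · exact le_rfl

open Classical in
/-- **The pseudo-code is feasible.** -/
theorem value_ge (u : (Fin n → ZMod 2) → ℝ) (T : ℕ → ℝ) (hu0 : u 0 = 0)
    (hu1 : ∀ x, 0 ≤ 1 + u x) (hud : ∀ x, 0 < hammingNorm x → hammingNorm x < d → u x = -1)
    (hT : ∀ s ∈ Icc 1 l, ∃ τ : Finset (Fin s → ZMod 2) → ℝ,
      (∀ A, Cd A → ∀ m : Matrix (Fin s) (Fin n) (ZMod 2), |ft (Ph u A) m| ≤ τ A) ∧
      ∑ A, (if Cd A then τ A else 0) ≤ T s)
    (herr : ∑ s ∈ Icc 1 l, (2 ^ k * 2 ^ l / 2 ^ n : ℝ) ^ s * T s ≤ 1 / 2)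
    (hnorm : ∑ s ∈ Icc 1 l, (2 ^ k * 2 ^ l / 2 ^ n : ℝ) ^ s ≤ 1) :
    ((2 : ℝ) ^ k) ^ l / 4 ≤ V l n d := by
  obtain ⟨F, hF⟩ : ∃ F, F = f0 k u (0 : Matrix (Fin l) (Fin n) (ZMod 2)) := ⟨_, rfl⟩
  have hNK : (0 : ℝ) < ((2 : ℝ) ^ n) ^ k := by positivity
  have hF1 : ((2 : ℝ) ^ n) ^ k ≤ F := hF ▸ f0_zero_ge hu1
  have hF0 : 0 < F := hNK.trans_le hF1
  have hF2 : F ≤ 2 * ((2 : ℝ) ^ n) ^ k := by
    rw [hF]
    refine (f0_zero_le hu0).trans ?_
    rw [mul_comm]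
    refine mul_le_mul_of_nonneg_right ?_ hNK.le
    linarith
  have hm := fun Y => main (k := k) u T hT Y
  have hge : ∀ Y : Matrix (Fin l) (Fin n) (ZMod 2),
      ((2 : ℝ) ^ n) ^ k * M k Y / 2 ≤ ∑ X, f0 k u X * ch X Y := by
    intro Y
    rw [f0_ft]
    have h1 := (abs_le.1 (hm Y)).1
    have h2 : ((2 : ℝ) ^ n) ^ k * M k Y * ∑ s ∈ Icc 1 l, (2 ^ k * 2 ^ l / 2 ^ n : ℝ) ^ s * T s ≤
        ((2 : ℝ) ^ n) ^ k * M k Y * (1 / 2) := mul_le_mul_of_nonneg_left herr (by positivity)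
    linarith
  have ha : Fs l n d (fun X => f0 k u X / F) := by
    refine ⟨?_, fun X => ?_, fun X c h0 h1 => ?_, fun Y => ?_⟩
    · rw [← hF, div_self hF0.ne']
    · refine div_nonneg (Finset.sum_nonneg fun G _ => Finset.sum_nonneg fun B _ => ?_) hF0.le
      split_ifs
      · exact wt_nonneg hu1 B G
      · exact le_rfl
    · have : f0 k u X = 0 := by
        refine Finset.sum_eq_zero fun G _ => Finset.sum_eq_zero fun B _ => ?_
        split_ifs with h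
        · refine Finset.prod_eq_zero (i := c ᵥ* B) ?_ ?_
          · refine Finset.mem_erase.2 ⟨?_, mem_R.2 ⟨c, rfl⟩⟩
            intro h2
            rw [← h, ← Matrix.vecMul_vecMul, h2, Matrix.zero_vecMul, hammingNorm_zero] at h0
            exact lt_irrefl _ h0
          · rw [Matrix.vecMul_vecMul, h, hud _ h0 h1]
            norm_num
        · rfl
      rw [this, zero_div]
    · have h2 : ∑ X, f0 k u X / F * ch X Y = (∑ X, f0 k u X * ch X Y) / F := by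
        rw [Finset.sum_div]
        exact Finset.sum_congr rfl fun X _ => by ring
      rw [h2]
      refine div_nonneg (le_trans (by positivity) (hge Y)) hF0.le
  refine le_trans ?_ (le_V ha)
  have h0 := hge 0
  simp only [ch_zero_right, mul_one] at h0
  have hM : (M k (0 : Matrix (Fin l) (Fin n) (ZMod 2)) : ℝ) = ((2 : ℝ) ^ k) ^ l := by
    unfold M
    simp only [Matrix.mul_zero, Finset.filter_true, Finset.card_univ]
    exact card_mat l k
  rw [hM] at h0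
  rw [← Finset.sum_div, le_div_iff₀ hF0]
  calc ((2 : ℝ) ^ k) ^ l / 4 * F ≤ ((2 : ℝ) ^ k) ^ l / 4 * (2 * ((2 : ℝ) ^ n) ^ k) := by gcongr
    _ = ((2 : ℝ) ^ n) ^ k * ((2 : ℝ) ^ k) ^ l / 2 := by ring
    _ ≤ _ := h0

end Pool.Agent.N381.LH
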