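import Mathlib
import Pool.Agent.N381.LH.Pseudo

/-!
N381/LH (helper381, MP_0430e4_lc): bounds for the types of terms.
-/

set_option autoImplicit false
set_option linter.unusedSectionVars false

namespace Pool.Agent.N381.LH

open Finset Matrix

section upd

variable {ι G : Type*} [Fintype ι] [DecidableEq ι] [Fintype G]

lemma sum_update (i : ι) (F : (ι → G) → ℝ) :
    ∑ x : ι → G, ∑ p, F (Function.update x i p) = (Fintype.card G : ℝ) * ∑ x, F x := by
  have hinv : Function.Involutive
      (fun q : (ι → G) × G => (Function.update q.1 i q.2, q.1 i)) := by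
    rintro ⟨x, p⟩
    simp
  have h1 : ∑ x : ι → G, ∑ p, F (Function.update x i p) =
      ∑ q : (ι → G) × G, F ((Function.Involutive.toPerm _ hinv) q).1 := by
    rw [Fintype.sum_prod_type]
    rfl
  rw [h1, Equiv.sum_comp (Function.Involutive.toPerm _ hinv) (fun q : (ι → G) × G => F q.1),
    Fintype.sum_prod_type]
  simp only [Finset.sum_const, Finset.card_univ, nsmul_eq_mul]
  rw [Finset.mul_sum]

end upd

variable {n k l s d : ℕ}

/-- the Fourier transform on the cube -/
noncomputable def hat (u : (Fin n → ZMod 2) → ℝ) (y : Fin n → ZMod 2) : ℝ :=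
  ∑ x, u x * sg (x ⬝ᵥ y)

/-- the standard basis -/
def bas (s : ℕ) : Finset (Fin s → ZMod 2) := univ.image fun i => Pi.single i 1

lemma single_inj {s : ℕ} {i j : Fin s} (h : (Pi.single i 1 : Fin s → ZMod 2) = Pi.single j 1) :
    i = j := by
  by_contra hij
  have := congrFun h i
  rw [Pi.single_eq_same, Pi.single_eq_of_ne hij] at this
  exact one_ne_zero this

lemma ft_bas (u : (Fin n → ZMod 2) → ℝ) (m : Matrix (Fin s) (Fin n) (ZMod 2)) :
    ft (Ph u (bas s)) m = ∏ i, hat u (m i) := by
  have h1 : ∀ x : Matrix (Fin s) (Fin n) (ZMod 2), Ph u (bas s) x * ch x m =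
      ∏ i, (u (x i) * sg (x i ⬝ᵥ m i)) := by
    intro x
    unfold Ph bas ch
    rw [Finset.prod_image fun i _ j _ h => single_inj h, Finset.prod_mul_distrib, ← sg_sum]
    congr 1
    refine Finset.prod_congr rfl fun i _ => ?_
    rw [Matrix.single_one_vecMul]
    rfl
  unfold ft hat
  rw [Finset.sum_congr rfl fun x _ => h1 x, Finset.prod_univ_sum, Fintype.piFinset_univ]
  rfl

lemma sum_prod_le (g : (Fin n → ZMod 2) → ℝ) (i₀ i₁ : Fin s) (h01 : i₀ ≠ i₁) :
    ∑ x : Fin s → (Fin n → ZMod 2), ∏ i ∈ (univ.erase i₀).erase i₁, g (x i) =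
      ((2 : ℝ) ^ n) ^ 2 * (∑ x, g x) ^ (s - 2) := by
  have h1 : ∀ x : Fin s → (Fin n → ZMod 2), ∏ i ∈ (univ.erase i₀).erase i₁, g (x i) =
      ∏ i, (if i ∈ (univ.erase i₀).erase i₁ then g (x i) else 1) := by
    intro x
    rw [Finset.prod_ite_mem, Finset.univ_inter]
  have hc : (Fintype.card (Fin n → ZMod 2) : ℝ) = 2 ^ n := by
    rw [Fintype.card_fun, ZMod.card, Fintype.card_fin]
    push_cast
    rfl
  rw [Finset.sum_congr rfl fun x _ => h1 x]
  have h2 := Finset.prod_univ_sum (fun _ : Fin s => (univ : Finset (Fin n → ZMod 2)))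
    (fun i y => if i ∈ (univ.erase i₀).erase i₁ then g y else 1)
  rw [Fintype.piFinset_univ] at h2
  rw [← h2]
  have h3 : ∀ i : Fin s, ∑ y : Fin n → ZMod 2, (if i ∈ (univ.erase i₀).erase i₁ then g y else 1) =
      if i ∈ (univ.erase i₀).erase i₁ then ∑ y, g y else 2 ^ n := by
    intro i
    split_ifs
    · rfl
    · rw [Finset.sum_const, nsmul_eq_mul, mul_one, Finset.card_univ, hc]
  rw [Finset.prod_congr rfl fun i _ => h3 i, Finset.prod_ite, Finset.prod_const, Finset.prod_const]
  have h4 : (univ.filter fun i => i ∈ (univ.erase i₀).erase i₁).card = s - 2 := by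
    rw [Finset.filter_mem_eq_inter, Finset.univ_inter, Finset.card_erase_of_mem,
      Finset.card_erase_of_mem (Finset.mem_univ _), Finset.card_univ, Fintype.card_fin]
    · omega
    · exact Finset.mem_erase.2 ⟨h01.symm, Finset.mem_univ _⟩
  have h5 : (univ.filter fun i => i ∉ (univ.erase i₀).erase i₁).card = 2 := by
    have : (univ.filter fun i => i ∉ (univ.erase i₀).erase i₁) = {i₀, i₁} := by
      ext i
      simp only [Finset.mem_filter, Finset.mem_univ, true_and, Finset.mem_erase, not_and,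
        Finset.mem_insert, Finset.mem_singleton]
      constructor
      · intro h
        by_contra h'
        push Not at h'
        exact h h'.2 h'.1 trivial
      · rintro (rfl | rfl)
        · intro _ h
          exact absurd rfl h
        · intro h
          exact absurd rfl h
    rw [this, Finset.card_pair h01]
  rw [h4, h5]
  ring

/-- **Dependent types.** -/
lemma dep_bound {u : (Fin n → ZMod 2) → ℝ} (hu : ∀ x, |u x| ≤ 1) {Q : ℝ}
    (hQ : ∀ w, ∑ x, ∑ y, |u x| * |u y| * |u (x + y + w)| ≤ Q)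
    (A : Finset (Fin s → ZMod 2)) (hA : Cd A) (hne : A ≠ bas s)
    (m : Matrix (Fin s) (Fin n) (ZMod 2)) :
    2 ≤ s ∧ |ft (Ph u A) m| ≤ (∑ x, |u x|) ^ (s - 2) * Q := by
  classical
  have hsub : bas s ⊆ A := by
    intro a ha
    obtain ⟨i, _, rfl⟩ := Finset.mem_image.1 ha
    exact hA.2 i
  obtain ⟨a, haA, hab⟩ : ∃ a ∈ A, a ∉ bas s := by
    by_contra h
    push Not at h
    exact hne (Finset.Subset.antisymm h hsub)
  have ha0 : a ≠ 0 := fun h => hA.1 (h ▸ haA)
  obtain ⟨i₀, hi₀⟩ : ∃ i, a i ≠ 0 := by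
    by_contra h
    push Not at h
    exact ha0 (funext h)
  have hi₀' : a i₀ = 1 := (zmod2_cases _).resolve_left hi₀
  obtain ⟨i₁, hi₁, h01⟩ : ∃ i, a i ≠ 0 ∧ i₀ ≠ i := by
    by_contra h
    push Not at h
    apply hab
    refine Finset.mem_image.2 ⟨i₀, Finset.mem_univ _, ?_⟩
    funext i
    by_cases hi : i = i₀
    · subst hi
      rw [Pi.single_eq_same, hi₀']
    · rw [Pi.single_eq_of_ne hi]
      by_contra h'
      exact hi (h i (fun h'' => h' h''.symm)).symm
  have hi₁' : a i₁ = 1 := (zmod2_cases _).resolve_left hi₁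
  have hs : 2 ≤ s := by
    have h1 : ({i₀, i₁} : Finset (Fin s)).card ≤ Fintype.card (Fin s) := Finset.card_le_univ _
    rwa [Finset.card_pair h01, Fintype.card_fin] at h1
  refine ⟨hs, ?_⟩
  have hc : (Fintype.card (Fin n → ZMod 2) : ℝ) = 2 ^ n := by
    rw [Fintype.card_fun, ZMod.card, Fintype.card_fin]
    push_cast
    rfl
  -- the absolute bound
  obtain ⟨F, hF⟩ : ∃ F : (Fin s → (Fin n → ZMod 2)) → ℝ,
      F = fun x => (∏ i, |u (x i)|) * |u (∑ i, a i • x i)| := ⟨_, rfl⟩
  have h1 : |ft (Ph u A) m| ≤ ∑ x, F x := by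
    unfold ft
    refine (Finset.abs_sum_le_sum_abs _ _).trans ?_
    refine Finset.sum_le_sum fun x _ => ?_
    rw [abs_mul, ch_abs, mul_one, hF]
    unfold Ph
    rw [Finset.abs_prod]
    have h2 : insert a (bas s) ⊆ A := Finset.insert_subset haA hsub
    rw [← Finset.prod_sdiff h2, Finset.prod_insert hab]
    have h3 : ∏ b ∈ bas s, |u (b ᵥ* x)| = ∏ i, |u (x i)| := by
      unfold bas
      rw [Finset.prod_image fun i _ j _ h => single_inj h]
      refine Finset.prod_congr rfl fun i _ => ?_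
      rw [Matrix.single_one_vecMul]
      rfl
    have h4 : a ᵥ* x = ∑ i, a i • x i := by
      rw [Matrix.vecMul_eq_sum]
    rw [h3, h4]
    have h5 : ∏ b ∈ A \ insert a (bas s), |u (b ᵥ* x)| ≤ 1 :=
      Finset.prod_le_one (fun _ _ => abs_nonneg _) fun _ _ => hu _
    calc (∏ b ∈ A \ insert a (bas s), |u (b ᵥ* x)|) *
          (|u (∑ i, a i • x i)| * ∏ i, |u (x i)|) ≤
        1 * (|u (∑ i, a i • x i)| * ∏ i, |u (x i)|) := by
          refine mul_le_mul_of_nonneg_right h5 (mul_nonneg (abs_nonneg _)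
            (Finset.prod_nonneg fun _ _ => abs_nonneg _))
      _ = (∏ i, |u (x i)|) * |u (∑ i, a i • x i)| := by ring
  refine h1.trans ?_
  -- averaging over two coordinates
  have h2 : ((2 : ℝ) ^ n) ^ 2 * ∑ x, F x = ∑ x : Fin s → (Fin n → ZMod 2), ∑ p, ∑ q,
      F (Function.update (Function.update x i₀ p) i₁ q) := by
    rw [sum_update i₀ (fun x => ∑ q, F (Function.update x i₁ q)), sum_update i₁ F, hc]
    ring
  have h3 : ∀ x : Fin s → (Fin n → ZMod 2), ∑ p, ∑ q,
      F (Function.update (Function.update x i₀ p) i₁ q) ≤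
      (∏ i ∈ (univ.erase i₀).erase i₁, |u (x i)|) * Q := by
    intro x
    have h4 : ∀ p q : Fin n → ZMod 2, F (Function.update (Function.update x i₀ p) i₁ q) =
        (∏ i ∈ (univ.erase i₀).erase i₁, |u (x i)|) * (|u p| * |u q| *
          |u (p + q + ∑ i ∈ (univ.erase i₀).erase i₁, a i • x i)|) := by
      intro p q
      have h5 : ∀ {M : Type} [CommMonoid M] (g : Fin s → (Fin n → ZMod 2) → M),
          ∏ i, g i (Function.update (Function.update x i₀ p) i₁ q i) =
            g i₀ p * (g i₁ q * ∏ i ∈ (univ.erase i₀).erase i₁, g i (x i)) := by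
        intro M _ g
        rw [← Finset.mul_prod_erase _ _ (Finset.mem_univ i₀),
          ← Finset.mul_prod_erase (univ.erase i₀) _
            (Finset.mem_erase.2 ⟨h01.symm, Finset.mem_univ i₁⟩)]
        rw [Function.update_of_ne h01, Function.update_self, Function.update_self]
        congr 2
        refine Finset.prod_congr rfl fun i hi => ?_
        have hi1 := (Finset.mem_erase.1 hi).1
        have hi2 := (Finset.mem_erase.1 (Finset.mem_erase.1 hi).2).1
        rw [Function.update_of_ne hi1, Function.update_of_ne hi2]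
      have h6 := h5 (fun _ y => |u y|)
      have h7 := h5 (M := Multiplicative (Fin n → ZMod 2)) (fun i y => Multiplicative.ofAdd (a i • y))
      have h8 : ∑ i, a i • (Function.update (Function.update x i₀ p) i₁ q i) =
          p + q + ∑ i ∈ (univ.erase i₀).erase i₁, a i • x i := by
        have h9 := congrArg Multiplicative.toAdd h7
        rw [toAdd_prod, toAdd_mul, toAdd_mul, toAdd_prod] at h9
        simp only [toAdd_ofAdd, hi₀', hi₁', one_smul] at h9
        rw [h9, add_assoc]
      rw [hF]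
      simp only
      rw [h6, h8]
      ring
    have h5 : ∑ p, ∑ q, F (Function.update (Function.update x i₀ p) i₁ q) =
        (∏ i ∈ (univ.erase i₀).erase i₁, |u (x i)|) * ∑ p, ∑ q, (|u p| * |u q| *
          |u (p + q + ∑ i ∈ (univ.erase i₀).erase i₁, a i • x i)|) := by
      rw [Finset.mul_sum]
      refine Finset.sum_congr rfl fun p _ => ?_
      rw [Finset.mul_sum]
      exact Finset.sum_congr rfl fun q _ => h4 p q
    rw [h5]
    exact mul_le_mul_of_nonneg_left (hQ _) (Finset.prod_nonneg fun _ _ => abs_nonneg _)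
  have h4 : ((2 : ℝ) ^ n) ^ 2 * ∑ x, F x ≤
      ((2 : ℝ) ^ n) ^ 2 * ((∑ x, |u x|) ^ (s - 2) * Q) := by
    rw [h2]
    refine (Finset.sum_le_sum fun x _ => h3 x).trans ?_
    rw [← Finset.sum_mul, sum_prod_le (fun y => |u y|) i₀ i₁ h01]
    exact le_of_eq (by ring)
  exact le_of_mul_le_mul_left h4 (by positivity)

end Pool.Agent.N381.LH
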