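import Mathlib
import Pool.Agent.N381.LH.Bound

/-!
N381/LH (helper381, MP_0430e4_lc): generating functions on the cube.
-/

set_option autoImplicit false
set_option linter.unusedSectionVars false

namespace Pool.Agent.N381.LH

open Finset Matrix Polynomial

variable {n : ℕ}

lemma sum_prod_cube {M : Type*} [CommSemiring M] (g : Fin n → ZMod 2 → M) :
    ∑ x : Fin n → ZMod 2, ∏ i, g i (x i) = ∏ i, (g i 0 + g i 1) := by
  have h := Finset.prod_univ_sum (fun _ : Fin n => (univ : Finset (ZMod 2))) g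
  rw [Fintype.piFinset_univ] at h
  rw [← h]
  refine Finset.prod_congr rfl fun i _ => ?_
  exact Fin.sum_univ_two (g i)

lemma pow_wt {M : Type*} [CommMonoid M] (r : M) (x : Fin n → ZMod 2) :
    r ^ hammingNorm x = ∏ i, (if x i ≠ 0 then r else 1) := by
  unfold hammingNorm
  rw [Finset.prod_ite, Finset.prod_const, Finset.prod_const_one, mul_one]

lemma wt_le (x : Fin n → ZMod 2) : hammingNorm x ≤ n := by
  have := hammingNorm_le_card_fintype (x := x)
  rwa [Fintype.card_fin] at this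

lemma zmod2_one_ne : (1 : ZMod 2) ≠ 0 := by decide

lemma gen_one (r : ℝ) : ∑ x : Fin n → ZMod 2, r ^ hammingNorm x = (1 + r) ^ n := by
  simp_rw [pow_wt]
  rw [sum_prod_cube fun _ a => if a ≠ 0 then r else 1]
  simp [zmod2_one_ne]

lemma gen_two (q : ℝ) (v : Fin n → ZMod 2) :
    ∑ x : Fin n → ZMod 2, q ^ (hammingNorm x + hammingNorm (x + v)) =
      (2 * q) ^ hammingNorm v * (1 + q ^ 2) ^ (n - hammingNorm v) := by
  have h1 : ∀ x : Fin n → ZMod 2, q ^ (hammingNorm x + hammingNorm (x + v)) =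
      ∏ i, ((if x i ≠ 0 then q else 1) * (if x i + v i ≠ 0 then q else 1)) := by
    intro x
    rw [pow_add, pow_wt, pow_wt, ← Finset.prod_mul_distrib]
    rfl
  rw [Finset.sum_congr rfl fun x _ => h1 x,
    sum_prod_cube fun i a => (if a ≠ 0 then q else 1) * (if a + v i ≠ 0 then q else 1)]
  have h2 : ∀ i, ((if (0 : ZMod 2) ≠ 0 then q else 1) * (if 0 + v i ≠ 0 then q else 1) +
      (if (1 : ZMod 2) ≠ 0 then q else 1) * (if 1 + v i ≠ 0 then q else 1)) =
      if v i ≠ 0 then 2 * q else 1 + q ^ 2 := by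
    intro i
    have h11 : (1 : ZMod 2) + 1 = 0 := by decide
    rcases zmod2_cases (v i) with h | h
    · rw [h]
      simp [zmod2_one_ne]
      ring
    · rw [h]
      simp [zmod2_one_ne, h11]
      ring
  rw [Finset.prod_congr rfl fun i _ => h2 i, Finset.prod_ite, Finset.prod_const, Finset.prod_const]
  have h3 : (univ.filter fun i => v i ≠ 0).card = hammingNorm v := rfl
  have h4 : (univ.filter fun i => ¬ v i ≠ 0).card = n - hammingNorm v := by
    have := Finset.card_filter_add_card_filter_not (s := (univ : Finset (Fin n))) (fun i => v i ≠ 0)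
    rw [h3, Finset.card_univ, Fintype.card_fin] at this
    omega
  rw [h3, h4]

/-- the ball without its centre -/
def Bl (n d : ℕ) : Finset (Fin n → ZMod 2) :=
  univ.filter fun x => 0 < hammingNorm x ∧ hammingNorm x < d

/-- the bound for the volume -/
noncomputable def VV (n d : ℕ) (r : ℝ) : ℝ := (1 + r) ^ n / r ^ d

lemma one_le_VV {r : ℝ} (hr : 0 < r) (hr1 : r ≤ 1) (d : ℕ) : 1 ≤ VV n d r := by
  unfold VV
  rw [le_div_iff₀ (by positivity), one_mul]
  calc r ^ d ≤ 1 := pow_le_one₀ hr.le hr1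
    _ ≤ _ := one_le_pow₀ (by linarith)

lemma card_low_le {r : ℝ} (hr : 0 < r) (hr1 : r ≤ 1) (d : ℕ) :
    ((univ.filter fun x : Fin n → ZMod 2 => hammingNorm x < d).card : ℝ) ≤ VV n d r := by
  unfold VV
  rw [le_div_iff₀ (by positivity), ← gen_one, ← nsmul_eq_mul, ← Finset.sum_const]
  refine (Finset.sum_le_sum fun x hx => ?_).trans
    (Finset.sum_le_sum_of_subset_of_nonneg (Finset.filter_subset _ _) fun x _ _ => by positivity)
  exact pow_le_pow_of_le_one hr.le hr1 (Finset.mem_filter.1 hx).2.le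

lemma card_Bl_le {r : ℝ} (hr : 0 < r) (hr1 : r ≤ 1) (d : ℕ) :
    ((Bl n d).card : ℝ) ≤ VV n d r := by
  refine le_trans ?_ (card_low_le hr hr1 d)
  refine Nat.cast_le.2 (Finset.card_le_card ?_)
  intro x hx
  exact Finset.mem_filter.2 ⟨Finset.mem_univ _, (Finset.mem_filter.1 hx).2.2⟩

/-- intersections of balls -/
lemma inter_le {q : ℝ} (hq : 0 < q) (hq1 : q ≤ 1) (d : ℕ) (v : Fin n → ZMod 2) :
    ((univ.filter fun x : Fin n → ZMod 2 => x ∈ Bl n d ∧ x + v ∈ Bl n d).card : ℝ) ≤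
      VV n d (q ^ 2) * (2 * q / (1 + q ^ 2)) ^ hammingNorm v := by
  have hv := wt_le v
  have h0 : (0 : ℝ) < 1 + q ^ 2 := by positivity
  have h1 : VV n d (q ^ 2) * (2 * q / (1 + q ^ 2)) ^ hammingNorm v =
      (2 * q) ^ hammingNorm v * (1 + q ^ 2) ^ (n - hammingNorm v) / q ^ (2 * d) := by
    unfold VV
    rw [← pow_mul, div_pow]
    have : (1 + q ^ 2) ^ n = (1 + q ^ 2) ^ (n - hammingNorm v) * (1 + q ^ 2) ^ hammingNorm v := by
      rw [← pow_add, Nat.sub_add_cancel hv]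
    rw [this]
    field_simp
  rw [h1, le_div_iff₀ (by positivity), ← gen_two, ← nsmul_eq_mul, ← Finset.sum_const]
  refine (Finset.sum_le_sum fun x hx => ?_).trans
    (Finset.sum_le_sum_of_subset_of_nonneg (Finset.filter_subset _ _) fun x _ _ => by positivity)
  refine pow_le_pow_of_le_one hq.le hq1 ?_
  have h2 := (Finset.mem_filter.1 (Finset.mem_filter.1 hx).2.1).2.2
  have h3 := (Finset.mem_filter.1 (Finset.mem_filter.1 hx).2.2).2.2
  omega

/-! ### characters on the ball -/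

/-- coefficientwise domination -/
def Dom (p q : ℝ[X]) : Prop := ∀ w, |p.coeff w| ≤ q.coeff w

lemma Dom.mul {p q p' q' : ℝ[X]} (h : Dom p q) (h' : Dom p' q') : Dom (p * p') (q * q') := by
  intro w
  rw [coeff_mul, coeff_mul]
  refine (Finset.abs_sum_le_sum_abs _ _).trans (Finset.sum_le_sum fun x _ => ?_)
  rw [abs_mul]
  exact mul_le_mul (h _) (h' _) (abs_nonneg _) ((abs_nonneg _).trans (h _))

lemma Dom.one : Dom 1 1 := by
  intro w
  rw [coeff_one]
  split_ifs <;> simp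

lemma Dom.pow {p q : ℝ[X]} (h : Dom p q) (m : ℕ) : Dom (p ^ m) (q ^ m) := by
  induction m with
  | zero => simpa using Dom.one
  | succ m ih => rw [pow_succ, pow_succ]; exact ih.mul h

lemma dom_plus : Dom (1 + X) (1 + X) := by
  intro w
  rw [coeff_add, coeff_one, coeff_X]
  split_ifs <;> norm_num

lemma dom_minus : Dom (1 - X) (1 + X) := by
  intro w
  rw [coeff_sub, coeff_add, coeff_one, coeff_X]
  split_ifs with h1 h2
  · omega
  · norm_num
  · norm_num
  · norm_num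

lemma dom_sq : Dom ((1 - X) * (1 + X)) (1 + X ^ 2) := by
  have h : ((1 - X) * (1 + X) : ℝ[X]) = 1 - X ^ 2 := by ring
  rw [h]
  intro w
  rw [coeff_sub, coeff_add, coeff_one, coeff_X_pow]
  split_ifs with h1 h2
  · omega
  · norm_num
  · norm_num
  · norm_num

/-- the weight enumerator of a character -/
noncomputable def wp (y : Fin n → ZMod 2) : ℝ[X] :=
  ∑ x : Fin n → ZMod 2, C (sg (x ⬝ᵥ y)) * X ^ hammingNorm x

lemma wp_eq (y : Fin n → ZMod 2) :
    wp y = (1 - X) ^ hammingNorm y * (1 + X) ^ (n - hammingNorm y) := by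
  have h1 : ∀ x : Fin n → ZMod 2, (C (sg (x ⬝ᵥ y)) * X ^ hammingNorm x : ℝ[X]) =
      ∏ i, (C (sg (x i * y i)) * (if x i ≠ 0 then X else 1)) := by
    intro x
    rw [Finset.prod_mul_distrib, ← pow_wt, ← map_prod, ← sg_sum]
    rfl
  unfold wp
  rw [Finset.sum_congr rfl fun x _ => h1 x,
    sum_prod_cube fun i a => (C (sg (a * y i)) * (if a ≠ 0 then (X : ℝ[X]) else 1))]
  have h2 : ∀ i, (C (sg (0 * y i)) * (if (0 : ZMod 2) ≠ 0 then (X : ℝ[X]) else 1) +
      C (sg (1 * y i)) * (if (1 : ZMod 2) ≠ 0 then (X : ℝ[X]) else 1)) =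
      if y i ≠ 0 then 1 - X else 1 + X := by
    intro i
    rcases zmod2_cases (y i) with h | h
    · rw [h]
      simp [zmod2_one_ne]
    · rw [h]
      simp [zmod2_one_ne, sg_one]
      ring
  rw [Finset.prod_congr rfl fun i _ => h2 i, Finset.prod_ite, Finset.prod_const, Finset.prod_const]
  have h3 : (univ.filter fun i => y i ≠ 0).card = hammingNorm y := rfl
  have h4 : (univ.filter fun i => ¬ y i ≠ 0).card = n - hammingNorm y := by
    have := Finset.card_filter_add_card_filter_not (s := (univ : Finset (Fin n))) (fun i => y i ≠ 0)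
    rw [h3, Finset.card_univ, Fintype.card_fin] at this
    omega
  rw [h3, h4]

lemma wp_coeff (y : Fin n → ZMod 2) (w : ℕ) :
    (wp y).coeff w = ∑ x ∈ univ.filter (fun x : Fin n → ZMod 2 => hammingNorm x = w),
      sg (x ⬝ᵥ y) := by
  unfold wp
  rw [finsetSum_coeff, Finset.sum_filter]
  refine Finset.sum_congr rfl fun x _ => ?_
  rw [coeff_C_mul, coeff_X_pow]
  by_cases h : hammingNorm x = w
  · rw [if_pos h, if_pos h.symm, mul_one]
  · rw [if_neg h, if_neg (fun h' => h h'.symm), mul_zero]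

/-- the Fourier transform of the ball -/
noncomputable def bh (n d : ℕ) (y : Fin n → ZMod 2) : ℝ := ∑ x ∈ Bl n d, sg (x ⬝ᵥ y)

lemma bh_eq (d : ℕ) (y : Fin n → ZMod 2) : bh n d y = ∑ w ∈ Ioo 0 d, (wp y).coeff w := by
  unfold bh
  have h1 : ∀ w ∈ Ioo 0 d, (wp y).coeff w =
      ∑ x ∈ (Bl n d).filter (fun x : Fin n → ZMod 2 => hammingNorm x = w), sg (x ⬝ᵥ y) := by
    intro w hw
    rw [wp_coeff]
    refine Finset.sum_congr ?_ fun _ _ => rfl
    ext x
    have := Finset.mem_Ioo.1 hw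
    unfold Bl
    simp only [Finset.mem_filter, Finset.mem_univ, true_and]
    constructor
    · intro h
      exact ⟨⟨by omega, by omega⟩, h⟩
    · exact fun h => h.2
  rw [Finset.sum_congr rfl h1]
  refine (Finset.sum_fiberwise_of_maps_to (g := fun x : Fin n → ZMod 2 => hammingNorm x) ?_ _).symm
  intro x hx
  exact Finset.mem_Ioo.2 (Finset.mem_filter.1 hx).2

lemma bh_le {r : ℝ} (hr : 0 < r) (hr1 : r ≤ 1) (d j₀ : ℕ) (y : Fin n → ZMod 2)
    (h1 : j₀ ≤ hammingNorm y) (h2 : hammingNorm y + j₀ ≤ n) :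
    |bh n d y| ≤ VV n d r * ((1 + r ^ 2) / (1 + r) ^ 2) ^ j₀ := by
  obtain ⟨qq, hqq⟩ : ∃ qq : ℝ[X], qq = (1 + X ^ 2) ^ j₀ * (1 + X) ^ (n - 2 * j₀) := ⟨_, rfl⟩
  have hdom : Dom (wp y) qq := by
    have e1 : wp y = ((1 - X) * (1 + X)) ^ j₀ * ((1 - X) ^ (hammingNorm y - j₀) *
        (1 + X) ^ (n - hammingNorm y - j₀)) := by
      rw [wp_eq, mul_pow]
      have a1 : (1 - X : ℝ[X]) ^ hammingNorm y =
          (1 - X) ^ j₀ * (1 - X) ^ (hammingNorm y - j₀) := by
        rw [← pow_add, Nat.add_sub_cancel' h1]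
      have a2 : (1 + X : ℝ[X]) ^ (n - hammingNorm y) =
          (1 + X) ^ j₀ * (1 + X) ^ (n - hammingNorm y - j₀) := by
        rw [← pow_add, Nat.add_sub_cancel' (by omega)]
      rw [a1, a2]
      ring
    have e2 : qq = (1 + X ^ 2) ^ j₀ * ((1 + X) ^ (hammingNorm y - j₀) *
        (1 + X) ^ (n - hammingNorm y - j₀)) := by
      rw [hqq, ← pow_add]
      congr 2
      omega
    rw [e1, e2]
    exact (dom_sq.pow _).mul ((dom_minus.pow _).mul (dom_plus.pow _))
  have hnn : ∀ w, 0 ≤ qq.coeff w := fun w => (abs_nonneg _).trans (hdom w)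
  have h3 : |bh n d y| ≤ ∑ w ∈ Ioo 0 d, qq.coeff w := by
    rw [bh_eq]
    exact (Finset.abs_sum_le_sum_abs _ _).trans (Finset.sum_le_sum fun w _ => hdom w)
  have h4 : (∑ w ∈ Ioo 0 d, qq.coeff w) * r ^ d ≤ qq.eval r := by
    obtain ⟨D, hD⟩ : ∃ D, D = max (qq.natDegree + 1) d := ⟨_, rfl⟩
    rw [eval_eq_sum_range' (lt_of_lt_of_le (Nat.lt_succ_self _) (le_max_left _ d) : qq.natDegree < max (qq.natDegree + 1) d), Finset.sum_mul]
    refine (Finset.sum_le_sum fun w hw => ?_).trans (Finset.sum_le_sum_of_subset_of_nonneg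
      (s := Ioo 0 d) (f := fun w => qq.coeff w * r ^ w) ?_ fun w _ _ => ?_)
    · refine mul_le_mul_of_nonneg_left ?_ (hnn w)
      exact pow_le_pow_of_le_one hr.le hr1 (Finset.mem_Ioo.1 hw).2.le
    · intro w hw
      exact Finset.mem_range.2 (lt_of_lt_of_le (Finset.mem_Ioo.1 hw).2 (le_max_right _ _))
    · exact mul_nonneg (hnn w) (by positivity)
  have h5 : qq.eval r = (1 + r ^ 2) ^ j₀ * (1 + r) ^ (n - 2 * j₀) := by
    rw [hqq]
    simp
  have h6 : VV n d r * ((1 + r ^ 2) / (1 + r) ^ 2) ^ j₀ =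
      (1 + r ^ 2) ^ j₀ * (1 + r) ^ (n - 2 * j₀) / r ^ d := by
    unfold VV
    rw [div_pow, ← pow_mul]
    have : (1 + r) ^ n = (1 + r) ^ (n - 2 * j₀) * (1 + r) ^ (2 * j₀) := by
      rw [← pow_add]
      congr 1
      omega
    rw [this]
    field_simp
  rw [h6, ← h5, le_div_iff₀ (by positivity)]
  exact (mul_le_mul_of_nonneg_right h3 (by positivity)).trans h4

end Pool.Agent.N381.LH
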