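import Mathlib
import Pool.Agent.N381.LH.Gen

/-!
N381/LH (helper381, MP_0430e4_lc): the function which is `-1` on the ball and has no large Fourier
coefficients.
-/

set_option autoImplicit false
set_option linter.unusedSectionVars false

namespace Pool.Agent.N381.LH

open Finset Matrix

variable {n : ℕ}

lemma sgn_sum (y : Fin n → ZMod 2) :
    ∑ x : Fin n → ZMod 2, sg (x ⬝ᵥ y) = if y = 0 then (2 : ℝ) ^ n else 0 := by
  have h : ∀ x : Fin n → ZMod 2, sg (x ⬝ᵥ y) = ∏ i, sg (x i * y i) := by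
    intro x
    rw [← sg_sum]
    rfl
  rw [Finset.sum_congr rfl fun x _ => h x, sum_prod_cube fun i a => sg (a * y i)]
  split_ifs with hy
  · subst hy
    simp
    norm_num
  · obtain ⟨i, hi⟩ : ∃ i, y i ≠ 0 := by
      by_contra h
      push Not at h
      exact hy (funext h)
    refine Finset.prod_eq_zero (Finset.mem_univ i) ?_
    rw [(zmod2_cases (y i)).resolve_left hi, zero_mul, one_mul, sg_zero, sg_one]
    norm_num

/-- low and high frequencies -/
def PP (n j₀ : ℕ) : Finset (Fin n → ZMod 2) :=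
  univ.filter fun c => hammingNorm c < j₀ ∨ n < hammingNorm c + j₀

lemma card_PP_le (n j₀ : ℕ) :
    (PP n j₀).card ≤ 2 * (univ.filter fun x : Fin n → ZMod 2 => hammingNorm x < j₀).card := by
  have h1 : PP n j₀ ⊆ (univ.filter fun x : Fin n → ZMod 2 => hammingNorm x < j₀) ∪
      (univ.filter fun x : Fin n → ZMod 2 => hammingNorm x < j₀).image (fun x => x + 1) := by
    intro x hx
    rcases (Finset.mem_filter.1 hx).2 with h | h
    · exact Finset.mem_union_left _ (Finset.mem_filter.2 ⟨Finset.mem_univ _, h⟩)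
    · refine Finset.mem_union_right _ (Finset.mem_image.2 ⟨x + 1, Finset.mem_filter.2
        ⟨Finset.mem_univ _, ?_⟩, ?_⟩)
      · have h2 : hammingNorm (x + 1) = n - hammingNorm x := by
          unfold hammingNorm
          have h3 := Finset.card_filter_add_card_filter_not (s := (univ : Finset (Fin n)))
            (fun i => x i ≠ 0)
          rw [Finset.card_univ, Fintype.card_fin] at h3
          have h4 : (univ.filter fun i => (x + 1) i ≠ 0) = univ.filter fun i => ¬ x i ≠ 0 := by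
            refine Finset.filter_congr fun i _ => ?_
            rw [Pi.add_apply, Pi.one_apply]
            rcases zmod2_cases (x i) with h | h
            · rw [h]; simp
            · rw [h]
              have : (1 : ZMod 2) + 1 = 0 := by decide
              simp [this]
          rw [h4]
          omega
        rw [h2]
        have := wt_le x
        omega
      · funext i
        rw [Pi.add_apply, Pi.add_apply, Pi.one_apply, add_assoc]
        have : (1 : ZMod 2) + 1 = 0 := by decide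
        rw [this, add_zero]
  refine (Finset.card_le_card h1).trans ((Finset.card_union_le _ _).trans ?_)
  have := Finset.card_image_le (s := univ.filter fun x : Fin n → ZMod 2 => hammingNorm x < j₀)
    (f := fun x => x + 1)
  omega

/-- the projection to low and high frequencies of the ball -/
noncomputable def Lf (n d j₀ : ℕ) (x : Fin n → ZMod 2) : ℝ :=
  ((2 : ℝ) ^ n)⁻¹ * ∑ c ∈ PP n j₀, bh n d c * sg (x ⬝ᵥ c)

lemma bh_le_card (d : ℕ) (y : Fin n → ZMod 2) : |bh n d y| ≤ (Bl n d).card := by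
  unfold bh
  refine (Finset.abs_sum_le_sum_abs _ _).trans ?_
  simp [sg_abs]

lemma Lf_le (d j₀ : ℕ) (x : Fin n → ZMod 2) :
    |Lf n d j₀ x| ≤ (PP n j₀).card * (Bl n d).card / 2 ^ n := by
  unfold Lf
  rw [abs_mul, abs_of_pos (by positivity), inv_mul_eq_div]
  refine div_le_div_of_nonneg_right ?_ (by positivity)
  refine (Finset.abs_sum_le_sum_abs _ _).trans ?_
  rw [← nsmul_eq_mul, ← Finset.sum_const]
  refine Finset.sum_le_sum fun c _ => ?_
  rw [abs_mul, sg_abs, mul_one]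
  exact bh_le_card d c

lemma Lf_hat (d j₀ : ℕ) (y : Fin n → ZMod 2) :
    ∑ x, Lf n d j₀ x * sg (x ⬝ᵥ y) = if y ∈ PP n j₀ then bh n d y else 0 := by
  unfold Lf
  have h1 : ∀ x : Fin n → ZMod 2, ((2 : ℝ) ^ n)⁻¹ * (∑ c ∈ PP n j₀, bh n d c * sg (x ⬝ᵥ c)) *
      sg (x ⬝ᵥ y) = ∑ c ∈ PP n j₀, ((2 : ℝ) ^ n)⁻¹ * bh n d c * sg (x ⬝ᵥ (c + y)) := by
    intro x
    rw [Finset.mul_sum, Finset.sum_mul]
    refine Finset.sum_congr rfl fun c _ => ?_
    rw [dotProduct_add, sg_add]
    ring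
  rw [Finset.sum_congr rfl fun x _ => h1 x, Finset.sum_comm]
  have h2 : ∀ c : Fin n → ZMod 2, ∑ x : Fin n → ZMod 2,
      ((2 : ℝ) ^ n)⁻¹ * bh n d c * sg (x ⬝ᵥ (c + y)) = if c = y then bh n d y else 0 := by
    intro c
    rw [← Finset.mul_sum, sgn_sum]
    by_cases h : c = y
    · subst h
      have : c + c = 0 := by
        funext i
        exact CharTwo.add_self_eq_zero _
      rw [if_pos this, if_pos rfl]
      field_simp
    · rw [if_neg, if_neg h, mul_zero]
      intro h'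
      apply h
      funext i
      have := congrFun h' i
      rw [Pi.add_apply, Pi.zero_apply] at this
      rcases zmod2_cases (c i) with h1 | h1 <;> rcases zmod2_cases (y i) with h2 | h2 <;>
        rw [h1, h2] at this ⊢ <;> revert this <;> decide
  rw [Finset.sum_congr rfl fun c _ => h2 c, Finset.sum_ite_eq']

/-- the function -/
noncomputable def uu (n d j₀ : ℕ) (x : Fin n → ZMod 2) : ℝ :=
  if x = 0 then 0 else if hammingNorm x < d then -1 else Lf n d j₀ x

lemma uu_zero (n d j₀ : ℕ) : uu n d j₀ 0 = 0 := if_pos rfl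

lemma uu_ball {d j₀ : ℕ} {x : Fin n → ZMod 2} (h0 : 0 < hammingNorm x) (h1 : hammingNorm x < d) :
    uu n d j₀ x = -1 := by
  unfold uu
  rw [if_neg (hammingNorm_pos_iff.1 h0), if_pos h1]

/-- outside the ball -/
lemma uu_out {d j₀ : ℕ} {η : ℝ} (hη0 : 0 ≤ η) (hη : ∀ x : Fin n → ZMod 2, |Lf n d j₀ x| ≤ η)
    {x : Fin n → ZMod 2} (hx : x ∉ Bl n d) : |uu n d j₀ x| ≤ η := by
  unfold uu
  split_ifs with h1 h2
  · simpa using hη0
  · exact absurd (Finset.mem_filter.2 ⟨Finset.mem_univ _, hammingNorm_pos_iff.2 h1, h2⟩) hx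
  · exact hη x

lemma uu_le_one {d j₀ : ℕ} {η : ℝ} (hη0 : 0 ≤ η) (hη : ∀ x : Fin n → ZMod 2, |Lf n d j₀ x| ≤ η)
    (hη1 : η ≤ 1) (x : Fin n → ZMod 2) : |uu n d j₀ x| ≤ 1 := by
  by_cases hx : x ∈ Bl n d
  · obtain ⟨_, h1, h2⟩ := Finset.mem_filter.1 hx
    rw [uu_ball h1 h2]
    norm_num
  · exact (uu_out hη0 hη hx).trans hη1

lemma uu_l1 {d j₀ : ℕ} {η : ℝ} (hη0 : 0 ≤ η) (hη : ∀ x : Fin n → ZMod 2, |Lf n d j₀ x| ≤ η)
    (hη1 : η ≤ 1) : ∑ x, |uu n d j₀ x| ≤ (Bl n d).card + 2 ^ n * η := by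
  classical
  rw [← Finset.sum_add_sum_compl (Bl n d)]
  refine add_le_add ?_ ?_
  · refine (Finset.sum_le_sum fun x _ => uu_le_one hη0 hη hη1 x).trans ?_
    simp
  · refine (Finset.sum_le_sum fun x hx => uu_out hη0 hη (Finset.mem_compl.1 hx)).trans ?_
    rw [Finset.sum_const, nsmul_eq_mul]
    refine mul_le_mul_of_nonneg_right ?_ hη0
    refine (Nat.cast_le.2 (Finset.card_le_univ _)).trans (le_of_eq ?_)
    rw [Fintype.card_fun, ZMod.card, Fintype.card_fin]
    push_cast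
    rfl

lemma uu_hat {d j₀ : ℕ} {η : ℝ} (hη : ∀ x : Fin n → ZMod 2, |Lf n d j₀ x| ≤ η)
    (y : Fin n → ZMod 2) :
    |hat (uu n d j₀) y| ≤ (if y ∈ PP n j₀ then 0 else |bh n d y|) + ((Bl n d).card + 1) * η := by
  classical
  have h1 : ∀ x : Fin n → ZMod 2, uu n d j₀ x * sg (x ⬝ᵥ y) = Lf n d j₀ x * sg (x ⬝ᵥ y) -
      (if x ∈ Bl n d then sg (x ⬝ᵥ y) else 0) -
      (if x ∈ insert 0 (Bl n d) then Lf n d j₀ x * sg (x ⬝ᵥ y) else 0) := by
    intro x
    unfold uu
    by_cases hx : x = 0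
    · subst hx
      have h0 : (0 : Fin n → ZMod 2) ∉ Bl n d := by
        intro h
        have := (Finset.mem_filter.1 h).2.1
        rw [hammingNorm_zero] at this
        exact lt_irrefl _ this
      rw [if_pos rfl, if_neg h0, if_pos (Finset.mem_insert_self _ _)]
      ring
    · rw [if_neg hx]
      by_cases hb : x ∈ Bl n d
      · rw [if_pos (Finset.mem_filter.1 hb).2.2, if_pos hb, if_pos (Finset.mem_insert_of_mem hb)]
        ring
      · have h2 : ¬ hammingNorm x < d := fun h =>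
          hb (Finset.mem_filter.2 ⟨Finset.mem_univ _, hammingNorm_pos_iff.2 hx, h⟩)
        rw [if_neg h2, if_neg hb, if_neg (fun h => (Finset.mem_insert.1 h).elim hx hb)]
        ring
  have h2 : hat (uu n d j₀) y = (if y ∈ PP n j₀ then bh n d y else 0) - bh n d y -
      ∑ x ∈ insert 0 (Bl n d), Lf n d j₀ x * sg (x ⬝ᵥ y) := by
    unfold hat
    rw [Finset.sum_congr rfl fun x _ => h1 x, Finset.sum_sub_distrib, Finset.sum_sub_distrib,
      Lf_hat, Finset.sum_ite_mem, Finset.univ_inter, Finset.sum_ite_mem, Finset.univ_inter]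
    rfl
  have h3 : |∑ x ∈ insert 0 (Bl n d), Lf n d j₀ x * sg (x ⬝ᵥ y)| ≤ ((Bl n d).card + 1) * η := by
    have hη0 : 0 ≤ η := (abs_nonneg _).trans (hη 0)
    refine (Finset.abs_sum_le_sum_abs _ _).trans ?_
    refine (Finset.sum_le_sum (g := fun _ => η) fun x _ => ?_).trans ?_
    · rw [abs_mul, sg_abs, mul_one]
      exact hη x
    · rw [Finset.sum_const, nsmul_eq_mul]
      refine mul_le_mul_of_nonneg_right ?_ hη0
      exact_mod_cast Finset.card_insert_le _ _
  rw [h2]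
  refine (abs_sub _ _).trans ?_
  refine add_le_add ?_ h3
  split_ifs
  · simp
  · simp

/-- shifted products -/
lemma uu_shift {d j₀ : ℕ} {η : ℝ} (hη0 : 0 ≤ η) (hη : ∀ x : Fin n → ZMod 2, |Lf n d j₀ x| ≤ η)
    (hη1 : η ≤ 1) (v : Fin n → ZMod 2) :
    ∑ y, |uu n d j₀ y| * |uu n d j₀ (y + v)| ≤
      (univ.filter fun x : Fin n → ZMod 2 => x ∈ Bl n d ∧ x + v ∈ Bl n d).card +
        η * (Bl n d).card + η * ∑ x, |uu n d j₀ x| := by
  classical
  have h1 : ∀ y : Fin n → ZMod 2, |uu n d j₀ y| * |uu n d j₀ (y + v)| ≤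
      (if y ∈ Bl n d ∧ y + v ∈ Bl n d then 1 else 0) + η * (if y ∈ Bl n d then 1 else 0) +
        η * |uu n d j₀ (y + v)| := by
    intro y
    have a1 := uu_le_one hη0 hη hη1 y
    have a2 := uu_le_one hη0 hη hη1 (y + v)
    have b1 := abs_nonneg (uu n d j₀ y)
    have b2 := abs_nonneg (uu n d j₀ (y + v))
    by_cases hy : y ∈ Bl n d
    · by_cases hv : y + v ∈ Bl n d
      · rw [if_pos ⟨hy, hv⟩, if_pos hy]
        have : |uu n d j₀ y| * |uu n d j₀ (y + v)| ≤ 1 := mul_le_one₀ a1 b2 a2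
        have : 0 ≤ η * |uu n d j₀ (y + v)| := mul_nonneg hη0 b2
        linarith
      · rw [if_neg (fun h => hv h.2), if_pos hy]
        have h2 := uu_out hη0 hη hv
        have h3 : |uu n d j₀ y| * |uu n d j₀ (y + v)| ≤ 1 * η :=
          mul_le_mul a1 h2 b2 zero_le_one
        have : 0 ≤ η * |uu n d j₀ (y + v)| := mul_nonneg hη0 b2
        linarith
    · rw [if_neg (fun h => hy h.1), if_neg hy]
      have h2 := uu_out hη0 hη hy
      have h3 : |uu n d j₀ y| * |uu n d j₀ (y + v)| ≤ η * |uu n d j₀ (y + v)| :=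
        mul_le_mul_of_nonneg_right h2 b2
      linarith
  refine (Finset.sum_le_sum fun y _ => h1 y).trans (le_of_eq ?_)
  rw [Finset.sum_add_distrib, Finset.sum_add_distrib, ← Finset.mul_sum, ← Finset.mul_sum,
    Finset.sum_boole, Finset.sum_boole]
  congr 2
  · congr 3
    ext x
    simp
  · exact Equiv.sum_comp (Equiv.addRight v) (fun y => |uu n d j₀ y|)

/-- triple sums -/
lemma uu_triple {d j₀ j₁ : ℕ} {η b₀ : ℝ} (hη0 : 0 ≤ η)
    (hη : ∀ x : Fin n → ZMod 2, |Lf n d j₀ x| ≤ η) (hη1 : η ≤ 1)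
    (hb : ∀ v : Fin n → ZMod 2, j₁ ≤ hammingNorm v →
      ∑ y, |uu n d j₀ y| * |uu n d j₀ (y + v)| ≤ b₀) (hb0 : 0 ≤ b₀) (w : Fin n → ZMod 2) :
    ∑ x, ∑ y, |uu n d j₀ x| * |uu n d j₀ y| * |uu n d j₀ (x + y + w)| ≤
      (∑ x, |uu n d j₀ x|) * (b₀ +
        (univ.filter fun x : Fin n → ZMod 2 => hammingNorm x < j₁).card) := by
  classical
  obtain ⟨S, hS⟩ : ∃ S, S = ∑ x, |uu n d j₀ x| := ⟨_, rfl⟩
  have hS0 : 0 ≤ S := hS ▸ Finset.sum_nonneg fun _ _ => abs_nonneg _
  have h1 : ∀ x : Fin n → ZMod 2, ∑ y, |uu n d j₀ x| * |uu n d j₀ y| * |uu n d j₀ (x + y + w)| ≤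
      |uu n d j₀ x| * b₀ + (if hammingNorm (x + w) < j₁ then 1 else 0) * S := by
    intro x
    have h2 : ∑ y, |uu n d j₀ x| * |uu n d j₀ y| * |uu n d j₀ (x + y + w)| =
        |uu n d j₀ x| * ∑ y, |uu n d j₀ y| * |uu n d j₀ (y + (x + w))| := by
      rw [Finset.mul_sum]
      refine Finset.sum_congr rfl fun y _ => ?_
      rw [show x + y + w = y + (x + w) by abel]
      ring
    rw [h2]
    split_ifs with h
    · have h3 : ∑ y, |uu n d j₀ y| * |uu n d j₀ (y + (x + w))| ≤ S := by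
        rw [hS]
        refine Finset.sum_le_sum fun y _ => ?_
        calc |uu n d j₀ y| * |uu n d j₀ (y + (x + w))| ≤ |uu n d j₀ y| * 1 :=
              mul_le_mul_of_nonneg_left (uu_le_one hη0 hη hη1 _) (abs_nonneg _)
          _ = _ := mul_one _
      have h4 : |uu n d j₀ x| * ∑ y, |uu n d j₀ y| * |uu n d j₀ (y + (x + w))| ≤ 1 * S :=
        mul_le_mul (uu_le_one hη0 hη hη1 x) h3
          (Finset.sum_nonneg fun _ _ => mul_nonneg (abs_nonneg _) (abs_nonneg _)) zero_le_one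
      have : 0 ≤ |uu n d j₀ x| * b₀ := mul_nonneg (abs_nonneg _) hb0
      linarith
    · rw [zero_mul, add_zero]
      exact mul_le_mul_of_nonneg_left (hb _ (not_lt.1 h)) (abs_nonneg _)
  refine (Finset.sum_le_sum fun x _ => h1 x).trans (le_of_eq ?_)
  rw [Finset.sum_add_distrib, ← Finset.sum_mul, ← Finset.sum_mul, ← hS, Finset.sum_boole]
  have h2 : (univ.filter fun x : Fin n → ZMod 2 => hammingNorm (x + w) < j₁).card =
      (univ.filter fun x : Fin n → ZMod 2 => hammingNorm x < j₁).card := by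
    refine Finset.card_bij (fun x _ => x + w) ?_ ?_ ?_
    · intro x hx
      exact Finset.mem_filter.2 ⟨Finset.mem_univ _, (Finset.mem_filter.1 hx).2⟩
    · intro x _ y _ h
      exact add_right_cancel h
    · intro y hy
      refine ⟨y - w, Finset.mem_filter.2 ⟨Finset.mem_univ _, ?_⟩, sub_add_cancel y w⟩
      rw [sub_add_cancel]
      exact (Finset.mem_filter.1 hy).2
  rw [h2]
  ring

end Pool.Agent.N381.LH
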