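import Mathlib
import Pool.Agent.N381.LH.Cons

/-!
N381/LH (helper381, MP_0430e4_lc): the lower bound for the values, with parameters.
-/

set_option autoImplicit false
set_option linter.unusedSectionVars false

namespace Pool.Agent.N381.LH

open Finset Matrix

variable {n k l s d : ℕ}

/-- the bound for the types of rank `s` -/
noncomputable def TT (Λ S Q : ℝ) (s : ℕ) : ℝ :=
  Λ ^ s + if 2 ≤ s then 2 ^ (2 ^ s) * (S ^ (s - 2) * Q) else 0

open Classical in
lemma types {u : (Fin n → ZMod 2) → ℝ} (hu : ∀ x, |u x| ≤ 1) {Λ S Q : ℝ}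
    (hΛ : ∀ y, |hat u y| ≤ Λ) (hS : ∑ x, |u x| ≤ S)
    (hQ : ∀ w, ∑ x, ∑ y, |u x| * |u y| * |u (x + y + w)| ≤ Q) (s : ℕ) :
    ∃ τ : Finset (Fin s → ZMod 2) → ℝ,
      (∀ A, Cd A → ∀ m : Matrix (Fin s) (Fin n) (ZMod 2), |ft (Ph u A) m| ≤ τ A) ∧
      ∑ A, (if Cd A then τ A else 0) ≤ TT Λ S Q s := by
  have hS0 : 0 ≤ ∑ x, |u x| := Finset.sum_nonneg fun _ _ => abs_nonneg _
  have hQ0 : 0 ≤ Q := le_trans (Finset.sum_nonneg fun x _ => Finset.sum_nonneg fun y _ =>
    mul_nonneg (mul_nonneg (abs_nonneg _) (abs_nonneg _)) (abs_nonneg _)) (hQ 0)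
  have hΛ0 : 0 ≤ Λ := (abs_nonneg _).trans (hΛ 0)
  refine ⟨fun A => if A = bas s then Λ ^ s else S ^ (s - 2) * Q, ?_, ?_⟩
  · intro A hA m
    simp only
    split_ifs with h
    · rw [h, ft_bas, Finset.abs_prod]
      refine (Finset.prod_le_prod (fun _ _ => abs_nonneg _) fun i _ => hΛ (m i)).trans ?_
      rw [Finset.prod_const, Finset.card_univ, Fintype.card_fin]
    · obtain ⟨_, h2⟩ := dep_bound hu hQ A hA h m
      refine h2.trans (mul_le_mul_of_nonneg_right (pow_le_pow_left₀ hS0 hS _) hQ0)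
  · have hS1 : 0 ≤ S := hS0.trans hS
    have h1 : ∀ A : Finset (Fin s → ZMod 2),
        (if Cd A then (if A = bas s then Λ ^ s else S ^ (s - 2) * Q) else 0) ≤
        (if A = bas s then Λ ^ s else 0) + if 2 ≤ s then S ^ (s - 2) * Q else 0 := by
      intro A
      have hnn : 0 ≤ if 2 ≤ s then S ^ (s - 2) * Q else 0 := by
        split_ifs
        · positivity
        · exact le_rfl
      have hnn2 : (0 : ℝ) ≤ if A = bas s then Λ ^ s else 0 := by
        split_ifs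
        · positivity
        · exact le_rfl
      by_cases hA : Cd A
      · rw [if_pos hA]
        by_cases hb : A = bas s
        · rw [if_pos hb, if_pos hb]
          linarith
        · rw [if_neg hb, if_neg hb, zero_add]
          have h2 := (dep_bound hu hQ A hA hb (0 : Matrix (Fin s) (Fin n) (ZMod 2))).1
          rw [if_pos h2]
      · rw [if_neg hA]
        linarith
    refine (Finset.sum_le_sum fun A _ => h1 A).trans (le_of_eq ?_)
    unfold TT
    rw [Finset.sum_add_distrib, Finset.sum_ite_eq', if_pos (Finset.mem_univ _), Finset.sum_const,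
      nsmul_eq_mul, Finset.card_univ, Fintype.card_finset, Fintype.card_fun, ZMod.card,
      Fintype.card_fin]
    congr 1
    split_ifs
    · push_cast
      rfl
    · rw [mul_zero]

/-- **The lower bound with parameters.** -/
theorem finite (n d j₀ j₁ k l : ℕ) (q y z : ℝ) (hq : 0 < q) (hq1 : q ≤ 1) (hy : 0 < y)
    (hy1 : y ≤ 1) (hz : 0 < z) (hz1 : z ≤ 1)
    (V1 P1 η S Λ x E : ℝ) (hV : V1 = VV n d (q ^ 2)) (hP : P1 = VV n j₀ y)
    (hη : η = 2 * P1 * V1 / 2 ^ n) (hη1 : η ≤ 1) (hS : S = 3 * P1 * V1)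
    (hΛ : Λ = V1 * (((1 + (q ^ 2) ^ 2) / (1 + q ^ 2) ^ 2) ^ j₀ + 2 * η))
    (hE : E = V1 * (2 * q / (1 + q ^ 2)) ^ j₁ + 2 * (η * S) + VV n j₁ z)
    (hx : x = 2 ^ k * 2 ^ l / 2 ^ n)
    (h1 : x * Λ ≤ 1 / (4 * l)) (h2 : ∀ s ∈ Icc 2 l, 2 ^ (2 ^ s) * (x ^ s * S ^ (s - 1) * E) ≤ 1 / (4 * l))
    (h3 : x ≤ 1 / l) (hl : 1 ≤ l) :
    ((2 : ℝ) ^ k) ^ l / 4 ≤ V l n d := by
  classical
  have hr : 0 < q ^ 2 := by positivity
  have hr1 : q ^ 2 ≤ 1 := pow_le_one₀ hq.le hq1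
  have hV1 : 1 ≤ V1 := hV ▸ one_le_VV hr hr1 d
  have hP1 : 1 ≤ P1 := hP ▸ one_le_VV hy hy1 j₀
  have hη0 : 0 ≤ η := by
    rw [hη]
    positivity
  have hBl : ((Bl n d).card : ℝ) ≤ V1 := hV ▸ card_Bl_le hr hr1 d
  have hPP : ((PP n j₀).card : ℝ) ≤ 2 * P1 := by
    have a1 := card_PP_le n j₀
    have a2 := card_low_le (n := n) hy hy1 j₀
    rw [← hP] at a2
    have a3 : ((PP n j₀).card : ℝ) ≤
        2 * ((univ.filter fun x : Fin n → ZMod 2 => hammingNorm x < j₀).card : ℝ) := by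
      exact_mod_cast a1
    linarith
  have hLf : ∀ x : Fin n → ZMod 2, |Lf n d j₀ x| ≤ η := by
    intro x
    refine (Lf_le d j₀ x).trans ?_
    rw [hη]
    refine div_le_div_of_nonneg_right ?_ (by positivity)
    exact mul_le_mul hPP hBl (Nat.cast_nonneg _) (by positivity)
  obtain ⟨u, hu⟩ : ∃ u, u = uu n d j₀ := ⟨_, rfl⟩
  have hu1 : ∀ x, |u x| ≤ 1 := fun x => hu ▸ uu_le_one hη0 hLf hη1 x
  have hηn : 2 ^ n * η = 2 * P1 * V1 := by
    rw [hη]
    field_simp
  have hS' : ∑ x, |u x| ≤ S := by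
    rw [hu, hS]
    refine (uu_l1 hη0 hLf hη1).trans ?_
    rw [hηn]
    nlinarith
  have hVS : V1 ≤ S := by
    rw [hS]
    nlinarith
  have hΛ' : ∀ c, |hat u c| ≤ Λ := by
    intro c
    rw [hu]
    refine (uu_hat hLf c).trans ?_
    have a1 : (if c ∈ PP n j₀ then 0 else |bh n d c|) ≤
        V1 * ((1 + (q ^ 2) ^ 2) / (1 + q ^ 2) ^ 2) ^ j₀ := by
      split_ifs with h
      · positivity
      · have h4 : ¬ (hammingNorm c < j₀ ∨ n < hammingNorm c + j₀) := fun h' =>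
          h (Finset.mem_filter.2 ⟨Finset.mem_univ _, h'⟩)
        push Not at h4
        rw [hV]
        exact bh_le hr hr1 d j₀ c h4.1 h4.2
    have a2 : ((Bl n d).card + 1) * η ≤ V1 * (2 * η) := by
      have : ((Bl n d).card : ℝ) + 1 ≤ 2 * V1 := by linarith
      calc ((Bl n d).card + 1) * η ≤ (2 * V1) * η := mul_le_mul_of_nonneg_right this hη0
        _ = _ := by ring
    rw [hΛ, mul_add]
    linarith
  obtain ⟨b₀, hb₀⟩ : ∃ b₀, b₀ = V1 * (2 * q / (1 + q ^ 2)) ^ j₁ + 2 * (η * S) := ⟨_, rfl⟩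
  have hS0 : 0 ≤ S := (Finset.sum_nonneg fun _ _ => abs_nonneg _).trans hS'
  have hθ0 : 0 ≤ 2 * q / (1 + q ^ 2) := by positivity
  have hθ1 : 2 * q / (1 + q ^ 2) ≤ 1 := by
    rw [div_le_one (by positivity)]
    nlinarith [sq_nonneg (1 - q)]
  have hb0 : 0 ≤ b₀ := by
    rw [hb₀]
    positivity
  have hb : ∀ v : Fin n → ZMod 2, j₁ ≤ hammingNorm v →
      ∑ y, |uu n d j₀ y| * |uu n d j₀ (y + v)| ≤ b₀ := by
    intro v hv
    refine (uu_shift hη0 hLf hη1 v).trans ?_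
    have a1 := inter_le hq hq1 d v (n := n)
    rw [← hV] at a1
    have a2 : V1 * (2 * q / (1 + q ^ 2)) ^ hammingNorm v ≤ V1 * (2 * q / (1 + q ^ 2)) ^ j₁ :=
      mul_le_mul_of_nonneg_left (pow_le_pow_of_le_one hθ0 hθ1 hv) (by linarith)
    have a3 : η * (Bl n d).card ≤ η * S := mul_le_mul_of_nonneg_left (hBl.trans hVS) hη0
    have a4 : η * ∑ x, |uu n d j₀ x| ≤ η * S := mul_le_mul_of_nonneg_left (hu ▸ hS') hη0
    rw [hb₀]
    linarith
  have hQ : ∀ w, ∑ x, ∑ y, |u x| * |u y| * |u (x + y + w)| ≤ S * E := by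
    intro w
    rw [hu]
    refine (uu_triple hη0 hLf hη1 hb hb0 w).trans ?_
    refine mul_le_mul (hu ▸ hS') ?_ (by positivity) hS0
    rw [hE, hb₀]
    have := card_low_le (n := n) hz hz1 j₁
    linarith
  have hE0 : 0 ≤ E := by
    rw [hE]
    have : 0 ≤ VV n j₁ z := zero_le_one.trans (one_le_VV hz hz1 j₁)
    positivity
  have hx0 : 0 ≤ x := by
    rw [hx]
    positivity
  have hΛ0 : 0 ≤ Λ := (abs_nonneg _).trans (hΛ' 0)
  have hlR : (1 : ℝ) ≤ l := by exact_mod_cast hl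
  have hl0 : (0 : ℝ) < l := by linarith
  have hx1 : x ≤ 1 := by
    refine h3.trans ?_
    rw [div_le_one hl0]
    exact hlR
  have hxΛ1 : x * Λ ≤ 1 := by
    refine h1.trans ?_
    rw [div_le_one (by positivity)]
    linarith
  refine value_ge u (TT Λ S (S * E)) (by rw [hu, uu_zero]) (fun x => ?_) (fun x h0 h1 => ?_)
    (fun s _ => types hu1 hΛ' hS' hQ s) ?_ ?_
  · have := (abs_le.1 (hu1 x)).1
    linarith
  · rw [hu]
    exact uu_ball h0 h1
  · rw [← hx]
    have h4 : ∀ s ∈ Icc 1 l, x ^ s * TT Λ S (S * E) s ≤ 1 / (4 * l) + 1 / (4 * l) := by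
      intro s hs
      obtain ⟨hs1, hs2⟩ := Finset.mem_Icc.1 hs
      unfold TT
      rw [mul_add, ← mul_pow]
      refine add_le_add ?_ ?_
      · refine le_trans ?_ h1
        have := pow_le_pow_of_le_one (mul_nonneg hx0 hΛ0) hxΛ1 hs1
        rwa [pow_one] at this
      · split_ifs with h
        · refine le_trans (le_of_eq ?_) (h2 s (Finset.mem_Icc.2 ⟨h, hs2⟩))
          have : S ^ (s - 1) = S ^ (s - 2) * S := by
            rw [← pow_succ]
            congr 1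
            omega
          rw [this]
          ring
        · rw [mul_zero]
          positivity
    refine (Finset.sum_le_sum h4).trans ?_
    rw [Finset.sum_const, nsmul_eq_mul, Nat.card_Icc, Nat.add_sub_cancel]
    apply le_of_eq
    field_simp
    norm_num
  · rw [← hx]
    have h4 : ∀ s ∈ Icc 1 l, x ^ s ≤ 1 / l := by
      intro s hs
      refine le_trans ?_ h3
      have := pow_le_pow_of_le_one hx0 hx1 (Finset.mem_Icc.1 hs).1
      rwa [pow_one] at this
    refine (Finset.sum_le_sum h4).trans ?_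
    rw [Finset.sum_const, nsmul_eq_mul, Nat.card_Icc, Nat.add_sub_cancel]
    apply le_of_eq
    field_simp

end Pool.Agent.N381.LH
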