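import Mathlib
import Pool.Agent.N381.LH.Finite

/-!
N381/LH (helper381, MP_0430e4_lc): asymptotics.
-/

set_option autoImplicit false
set_option linter.unusedSectionVars false

namespace Pool.Agent.N381.LH

open Filter Topology

/-- nonnegative sequences of growth rate at most `c` -/
def Gr (f : ℕ → ℝ) (c : ℝ) : Prop := ∃ C, 0 ≤ C ∧ ∀ n, 0 ≤ f n ∧ f n ≤ C * c ^ n

lemma Gr.nonneg {f : ℕ → ℝ} {c : ℝ} (h : Gr f c) (n : ℕ) : 0 ≤ f n := by
  obtain ⟨C, _, h⟩ := h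
  exact (h n).1

lemma Gr.mul {f g : ℕ → ℝ} {c c' : ℝ} (hf : Gr f c) (hg : Gr g c') :
    Gr (fun n => f n * g n) (c * c') := by
  obtain ⟨C, hC, h1⟩ := hf
  obtain ⟨C', hC', h2⟩ := hg
  refine ⟨C * C', mul_nonneg hC hC', fun n => ⟨mul_nonneg (h1 n).1 (h2 n).1, ?_⟩⟩
  calc f n * g n ≤ (C * c ^ n) * (C' * c' ^ n) :=
        mul_le_mul (h1 n).2 (h2 n).2 (h2 n).1 ((h1 n).1.trans (h1 n).2)
    _ = _ := by rw [mul_pow]; ring

lemma Gr.add {f g : ℕ → ℝ} {c : ℝ} (hf : Gr f c) (hg : Gr g c) :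
    Gr (fun n => f n + g n) c := by
  obtain ⟨C, hC, h1⟩ := hf
  obtain ⟨C', hC', h2⟩ := hg
  refine ⟨C + C', add_nonneg hC hC', fun n => ⟨add_nonneg (h1 n).1 (h2 n).1, ?_⟩⟩
  rw [add_mul]
  exact add_le_add (h1 n).2 (h2 n).2

lemma Gr.mono {f : ℕ → ℝ} {c c' : ℝ} (hf : Gr f c) (hc : 0 ≤ c) (h : c ≤ c') : Gr f c' := by
  obtain ⟨C, hC, h1⟩ := hf
  exact ⟨C, hC, fun n => ⟨(h1 n).1, (h1 n).2.trans
    (mul_le_mul_of_nonneg_left (pow_le_pow_left₀ hc h n) hC)⟩⟩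

lemma Gr.const_mul {f : ℕ → ℝ} {c : ℝ} (hf : Gr f c) {a : ℝ} (ha : 0 ≤ a) :
    Gr (fun n => a * f n) c := by
  obtain ⟨C, hC, h1⟩ := hf
  refine ⟨a * C, mul_nonneg ha hC, fun n => ⟨mul_nonneg ha (h1 n).1, ?_⟩⟩
  rw [mul_assoc]
  exact mul_le_mul_of_nonneg_left (h1 n).2 ha

lemma Gr.pow {f : ℕ → ℝ} {c : ℝ} (hf : Gr f c) (s : ℕ) : Gr (fun n => f n ^ s) (c ^ s) := by
  obtain ⟨C, hC, h1⟩ := hf
  refine ⟨C ^ s, by positivity, fun n => ⟨pow_nonneg (h1 n).1 s, ?_⟩⟩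
  calc f n ^ s ≤ (C * c ^ n) ^ s := pow_le_pow_left₀ (h1 n).1 (h1 n).2 s
    _ = C ^ s * (c ^ s) ^ n := by rw [mul_pow, ← pow_mul, ← pow_mul, mul_comm n s]

lemma Gr.ev {f : ℕ → ℝ} {c : ℝ} (hf : Gr f c) (hc : 0 ≤ c) (hc1 : c < 1) {ε : ℝ} (hε : 0 < ε) :
    ∀ᶠ n in atTop, f n ≤ ε := by
  obtain ⟨C, hC, h1⟩ := hf
  have h2 : Tendsto (fun n : ℕ => C * c ^ n) atTop (𝓝 (C * 0)) :=
    (tendsto_pow_atTop_nhds_zero_of_lt_one hc hc1).const_mul C
  rw [mul_zero] at h2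
  filter_upwards [h2.eventually (gt_mem_nhds hε)] with n hn
  exact (h1 n).2.trans hn.le

lemma gr_pow_ceil {ρ a : ℝ} (hρ : 0 < ρ) (hρ1 : ρ ≤ 1) (ha : 0 ≤ a) :
    Gr (fun n : ℕ => ρ ^ ⌈a * n⌉₊) (ρ ^ a) := by
  refine ⟨1, zero_le_one, fun n => ⟨by positivity, ?_⟩⟩
  show ρ ^ ⌈a * (n : ℝ)⌉₊ ≤ 1 * (ρ ^ a) ^ n
  rw [one_mul, ← Real.rpow_natCast, ← Real.rpow_natCast, ← Real.rpow_mul hρ.le]
  exact Real.rpow_le_rpow_of_exponent_ge hρ hρ1 (Nat.le_ceil _)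

lemma gr_VV {r a : ℝ} (hr : 0 < r) (hr1 : r ≤ 1) (ha : 0 ≤ a) :
    Gr (fun n : ℕ => VV n ⌈a * n⌉₊ r) ((1 + r) / r ^ a) := by
  refine ⟨1 / r, by positivity, fun n => ⟨zero_le_one.trans (one_le_VV hr hr1 _), ?_⟩⟩
  unfold VV
  have h1 : (r ^ a) ^ n * r ≤ r ^ ⌈a * n⌉₊ := by
    have h2 : (r ^ a) ^ n * r = r ^ (a * n + 1) := by
      rw [Real.rpow_add hr, Real.rpow_one, ← Real.rpow_natCast, ← Real.rpow_mul hr.le]
    rw [h2, ← Real.rpow_natCast r ⌈a * n⌉₊]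
    refine Real.rpow_le_rpow_of_exponent_ge hr hr1 ?_
    exact (Nat.ceil_lt_add_one (by positivity)).le
  have h3 : 0 < (r ^ a) ^ n * r := by positivity
  calc (1 + r) ^ n / r ^ ⌈a * n⌉₊ ≤ (1 + r) ^ n / ((r ^ a) ^ n * r) :=
        div_le_div_of_nonneg_left (by positivity) h3 h1
    _ = 1 / r * ((1 + r) / r ^ a) ^ n := by
        rw [div_pow]
        field_simp

lemma pi_le {z : ℝ} (hz : 0 < z) : (1 + z) / z ^ (z ^ 2) ≤ Real.exp (2 * z) := by
  have h1 : 1 + z ≤ Real.exp z := by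
    have := Real.add_one_le_exp z
    linarith
  have h2 : Real.exp (-z) ≤ z ^ (z ^ 2) := by
    rw [Real.rpow_def_of_pos hz]
    refine Real.exp_le_exp.2 ?_
    have h3 : Real.log (1 / z) ≤ 1 / z - 1 := Real.log_le_sub_one_of_pos (by positivity)
    rw [Real.log_div one_ne_zero hz.ne', Real.log_one, zero_sub] at h3
    have h4 : -(1 / z) ≤ Real.log z := by linarith
    have h5 : -(1 / z) * z ^ 2 ≤ Real.log z * z ^ 2 :=
      mul_le_mul_of_nonneg_right h4 (by positivity)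
    have h6 : -(1 / z) * z ^ 2 = -z := by
      field_simp
    linarith
  calc (1 + z) / z ^ (z ^ 2) ≤ Real.exp z / Real.exp (-z) := by
        gcongr
    _ = Real.exp (2 * z) := by
        rw [← Real.exp_sub]
        congr 1
        ring

/-- **The lower bound for the values of the hierarchy.** -/
theorem lower {δ : ℝ} (h0 : 0 < δ) (h1 : δ < 1 / 2) : ∃ c : ℝ, 0 < c ∧ ∀ l : ℕ, 1 ≤ l →
    ∀ᶠ n : ℕ in atTop,
      (2 : ℝ) ^ ((1 - Real.binEntropy δ / Real.log 2 + c / l ^ 2) * (l * n)) ≤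
        V l n ⌈δ * n⌉₊ := by
  have hl2 : 0 < Real.log 2 := Real.log_pos (by norm_num)
  -- the ratio
  obtain ⟨r, hr⟩ : ∃ r, r = δ / (1 - δ) := ⟨_, rfl⟩
  have h1δ : 0 < 1 - δ := by linarith
  have hr0 : 0 < r := by rw [hr]; positivity
  have hr1 : r < 1 := by
    rw [hr, div_lt_one h1δ]
    linarith
  obtain ⟨q, hq⟩ : ∃ q, q = √r := ⟨_, rfl⟩
  have hq0 : 0 < q := by rw [hq]; positivity
  have hqr : q ^ 2 = r := by rw [hq, Real.sq_sqrt hr0.le]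
  have hq1 : q < 1 := by
    by_contra h
    have h1 : 1 ≤ q := not_lt.1 h
    have h2 : 1 ≤ q ^ 2 := one_le_pow₀ h1
    linarith
  obtain ⟨v, hv⟩ : ∃ v, v = (1 + r) / r ^ δ := ⟨_, rfl⟩
  have hv0 : 0 < v := by rw [hv]; positivity
  obtain ⟨g, hg⟩ : ∃ g, g = Real.log v := ⟨_, rfl⟩
  have hgH : g = Real.binEntropy δ := by
    have e1 : 1 + r = 1 / (1 - δ) := by
      rw [hr]
      field_simp
      ring
    rw [hg, hv, Real.log_div (by positivity) (by positivity), Real.log_rpow hr0, e1, hr,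
      Real.log_div one_ne_zero h1δ.ne', Real.log_div h0.ne' h1δ.ne', Real.log_one]
    unfold Real.binEntropy
    rw [Real.log_inv, Real.log_inv]
    ring
  have hg0 : 0 < g := by
    rw [hgH]
    exact Real.binEntropy_pos h0 (by linarith)
  have hg2 : g < Real.log 2 := by
    rw [hgH]
    refine Real.binEntropy_lt_log_two.2 ?_
    norm_num
    linarith
  have hexpg : Real.exp g = v := by rw [hg, Real.exp_log hv0]
  have hv2 : v < 2 := by
    rw [← hexpg, ← Real.exp_log (by norm_num : (0 : ℝ) < 2)]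
    exact Real.exp_lt_exp.2 hg2
  obtain ⟨z, hz⟩ : ∃ z, z = g / 4 := ⟨_, rfl⟩
  have hz0 : 0 < z := by rw [hz]; positivity
  have hlog2 : Real.log 2 < 1 := by
    have := Real.log_two_lt_d9
    linarith
  have hz1 : z ≤ 1 := by
    rw [hz]
    linarith
  obtain ⟨θ, hθ⟩ : ∃ θ, θ = 2 * q / (1 + q ^ 2) := ⟨_, rfl⟩
  have hθ0 : 0 < θ := by rw [hθ]; positivity
  have hθ1 : θ < 1 := by
    rw [hθ, div_lt_one (by positivity)]
    nlinarith [sq_pos_of_pos (sub_pos.2 hq1)]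
  obtain ⟨ρ, hρ⟩ : ∃ ρ, ρ = (1 + (q ^ 2) ^ 2) / (1 + q ^ 2) ^ 2 := ⟨_, rfl⟩
  have hρ0 : 0 < ρ := by rw [hρ]; positivity
  have hρ1 : ρ < 1 := by
    rw [hρ, div_lt_one (by positivity)]
    nlinarith
  -- the fixed factor
  obtain ⟨β, hβ⟩ : ∃ β, β = max (θ ^ (z ^ 2)) (max (v / 2) (Real.exp (g / 2) / v)) := ⟨_, rfl⟩
  have hβθ : θ ^ (z ^ 2) ≤ β := hβ ▸ le_max_left _ _
  have hβv : v / 2 ≤ β := hβ ▸ (le_max_left _ _).trans (le_max_right _ _)
  have hβe : Real.exp (g / 2) / v ≤ β := hβ ▸ (le_max_right _ _).trans (le_max_right _ _)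
  have hβ0 : 0 < β := lt_of_lt_of_le (by positivity) hβv
  have hβ1 : β < 1 := by
    rw [hβ]
    refine max_lt ?_ (max_lt ?_ ?_)
    · exact Real.rpow_lt_one hθ0.le hθ1 (by positivity)
    · linarith
    · rw [div_lt_one hv0, ← hexpg]
      exact Real.exp_lt_exp.2 (by linarith)
  have hlβ : 0 < -Real.log β := by
    have := Real.log_neg hβ0 hβ1
    linarith
  obtain ⟨b, hb⟩ : ∃ b, b = min 1 (-Real.log β) := ⟨_, rfl⟩
  have hb0 : 0 < b := hb ▸ lt_min one_pos hlβ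
  have hb1 : b ≤ 1 := hb ▸ min_le_left _ _
  have hβb : β ≤ Real.exp (-b) := by
    have h2 : b ≤ -Real.log β := hb ▸ min_le_right _ _
    calc β = Real.exp (Real.log β) := (Real.exp_log hβ0).symm
      _ ≤ Real.exp (-b) := Real.exp_le_exp.2 (by linarith)
  obtain ⟨lr, hlr⟩ : ∃ lr, lr = -Real.log ρ := ⟨_, rfl⟩
  have hlr0 : 0 < lr := by
    have := Real.log_neg hρ0 hρ1
    rw [hlr]
    linarith
  obtain ⟨c₀, hc₀⟩ : ∃ c₀, c₀ = min (min (b / 4) (b ^ 2 * lr / 128)) (g / 2) := ⟨_, rfl⟩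
  have hc0 : 0 < c₀ := by
    rw [hc₀]
    refine lt_min (lt_min (by positivity) (by positivity)) (by positivity)
  have hc1 : c₀ ≤ b / 4 := hc₀ ▸ (min_le_left _ _).trans (min_le_left _ _)
  have hc2 : c₀ ≤ b ^ 2 * lr / 128 := hc₀ ▸ (min_le_left _ _).trans (min_le_right _ _)
  have hc3 : c₀ ≤ g / 2 := hc₀ ▸ min_le_right _ _
  refine ⟨c₀ / (2 * Real.log 2), by positivity, fun l hl => ?_⟩
  have hlR : (1 : ℝ) ≤ l := by exact_mod_cast hl
  have hl0 : (0 : ℝ) < l := by linarith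
  obtain ⟨t, ht⟩ : ∃ t, t = b / (4 * l) := ⟨_, rfl⟩
  have ht0 : 0 < t := by rw [ht]; positivity
  have hll : (l : ℝ) ≤ l ^ 2 := le_self_pow₀ hlR two_ne_zero
  have hll1 : (1 : ℝ) ≤ l ^ 2 := hlR.trans hll
  have ht1 : t ≤ 1 / 4 := by
    rw [ht, div_le_div_iff₀ (by positivity) (by norm_num)]
    linarith
  obtain ⟨y, hy⟩ : ∃ y, y = t / 2 := ⟨_, rfl⟩
  have hy0 : 0 < y := by rw [hy]; positivity
  have hy1 : y ≤ 1 := by rw [hy]; linarith
  have hcl : c₀ / l ^ 2 ≤ t := by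
    rw [ht, div_le_div_iff₀ (by positivity) (by positivity)]
    calc c₀ * (4 * l) ≤ b / 4 * (4 * l) := by gcongr
      _ = b * l := by ring
      _ ≤ b * l ^ 2 := by gcongr
  have hcg : c₀ / l ^ 2 ≤ g / 2 := by
    exact (div_le_self hc0.le hll1).trans hc3
  obtain ⟨ω, hω⟩ : ∃ ω, ω = Real.exp (c₀ / l ^ 2) := ⟨_, rfl⟩
  have hω0 : 0 < ω := hω ▸ Real.exp_pos _
  have hω1 : 1 ≤ ω := by
    rw [hω]
    exact Real.one_le_exp (by positivity)
  have hωt : ω ≤ Real.exp t := hω ▸ Real.exp_le_exp.2 hcl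
  obtain ⟨κ, hκ⟩ : ∃ κ, κ = Real.logb 2 (2 * ω / v) := ⟨_, rfl⟩
  have hκ2 : (2 : ℝ) ^ κ = 2 * ω / v := by
    rw [hκ, Real.rpow_logb (by norm_num) (by norm_num) (by positivity)]
  have hκ0 : 0 ≤ κ := by
    rw [hκ]
    refine Real.logb_nonneg (by norm_num) ?_
    rw [le_div_iff₀ hv0]
    linarith
  -- sequences
  have gV := gr_VV (r := q ^ 2) (a := δ) (by positivity) (by rw [hqr]; exact hr1.le) h0.le
  have eV : (1 + q ^ 2) / (q ^ 2) ^ δ = v := by rw [hqr, hv]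
  rw [eV] at gV
  have gP : Gr (fun n : ℕ => VV n ⌈y ^ 2 * n⌉₊ y) (Real.exp t) := by
    refine (gr_VV hy0 hy1 (by positivity)).mono (by positivity) ((pi_le hy0).trans (le_of_eq ?_))
    rw [hy]
    congr 1
    ring
  have gZ : Gr (fun n : ℕ => VV n ⌈z ^ 2 * n⌉₊ z) (Real.exp (g / 2)) := by
    refine (gr_VV hz0 hz1 (by positivity)).mono (by positivity) ((pi_le hz0).trans (le_of_eq ?_))
    rw [hz]
    congr 1
    ring
  have g2 : Gr (fun n : ℕ => ((2 : ℝ) ^ n)⁻¹) (1 / 2) := by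
    refine ⟨1, zero_le_one, fun n => ⟨by positivity, le_of_eq ?_⟩⟩
    rw [one_mul, one_div, inv_pow]
  have gη : Gr (fun n : ℕ => 2 * VV n ⌈y ^ 2 * n⌉₊ y * VV n ⌈δ * n⌉₊ (q ^ 2) / 2 ^ n)
      (Real.exp t * v * (1 / 2)) := by
    have := ((gP.const_mul (by norm_num : (0 : ℝ) ≤ 2)).mul gV).mul g2
    simpa only [div_eq_mul_inv] using this
  have gS : Gr (fun n : ℕ => 3 * VV n ⌈y ^ 2 * n⌉₊ y * VV n ⌈δ * n⌉₊ (q ^ 2))
      (Real.exp t * v) := (gP.const_mul (by norm_num : (0 : ℝ) ≤ 3)).mul gV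
  have gρ := gr_pow_ceil (a := y ^ 2) hρ0 hρ1.le (by positivity)
  obtain ⟨m₁, hm₁⟩ : ∃ m₁, m₁ = max (ρ ^ (y ^ 2)) (Real.exp t * v * (1 / 2)) := ⟨_, rfl⟩
  have gΛ : Gr (fun n : ℕ => VV n ⌈δ * n⌉₊ (q ^ 2) * (ρ ^ ⌈y ^ 2 * n⌉₊ +
      2 * (2 * VV n ⌈y ^ 2 * n⌉₊ y * VV n ⌈δ * n⌉₊ (q ^ 2) / 2 ^ n))) (v * m₁) :=
    gV.mul ((gρ.mono (by positivity) (hm₁ ▸ le_max_left _ _)).add
      ((gη.mono (by positivity) (hm₁ ▸ le_max_right _ _)).const_mul (by norm_num)))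
  have gθ := gr_pow_ceil (a := z ^ 2) hθ0 hθ1.le (by positivity)
  have gE : Gr (fun n : ℕ => VV n ⌈δ * n⌉₊ (q ^ 2) * θ ^ ⌈z ^ 2 * n⌉₊ +
      2 * ((2 * VV n ⌈y ^ 2 * n⌉₊ y * VV n ⌈δ * n⌉₊ (q ^ 2) / 2 ^ n) *
        (3 * VV n ⌈y ^ 2 * n⌉₊ y * VV n ⌈δ * n⌉₊ (q ^ 2))) + VV n ⌈z ^ 2 * n⌉₊ z)
      (v * Real.exp (2 * t) * β) := by
    have he : 1 ≤ Real.exp (2 * t) := Real.one_le_exp (by positivity)
    refine ((gV.mul gθ).mono (by positivity) ?_).add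
      (((gη.mul gS).const_mul (by norm_num)).mono (by positivity) ?_) |>.add
        (gZ.mono (by positivity) ?_)
    · calc v * θ ^ (z ^ 2) ≤ v * β := by gcongr
        _ = v * 1 * β := by ring
        _ ≤ v * Real.exp (2 * t) * β := by gcongr
    · have e1 : Real.exp (2 * t) = Real.exp t * Real.exp t := by
        rw [← Real.exp_add]
        congr 1
        ring
      calc Real.exp t * v * (1 / 2) * (Real.exp t * v) =
          v * (Real.exp t * Real.exp t) * (v / 2) := by ring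
        _ = v * Real.exp (2 * t) * (v / 2) := by rw [e1]
        _ ≤ v * Real.exp (2 * t) * β := by gcongr
    · calc Real.exp (g / 2) = v * 1 * (Real.exp (g / 2) / v) := by field_simp
        _ ≤ v * Real.exp (2 * t) * β := by gcongr
  have gx : Gr (fun n : ℕ => (2 : ℝ) ^ ⌊κ * n⌋₊ * 2 ^ l / 2 ^ n) (ω / v) := by
    refine ⟨2 ^ l, by positivity, fun n => ⟨by positivity, ?_⟩⟩
    have h2 : (2 : ℝ) ^ ⌊κ * n⌋₊ ≤ (2 * ω / v) ^ n := by
      rw [← hκ2, ← Real.rpow_natCast, ← Real.rpow_natCast, ← Real.rpow_mul (by norm_num)]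
      exact Real.rpow_le_rpow_of_exponent_le (by norm_num) (Nat.floor_le (by positivity))
    calc (2 : ℝ) ^ ⌊κ * n⌋₊ * 2 ^ l / 2 ^ n ≤ (2 * ω / v) ^ n * 2 ^ l / 2 ^ n := by gcongr
      _ = 2 ^ l * (ω / v) ^ n := by
          rw [show 2 * ω / v = 2 * (ω / v) by ring, mul_pow]
          field_simp
  -- smallness
  have ee : Real.exp (2 * t) * β < 1 := by
    have h2 : 2 * t < b := by
      rw [ht]
      have : 2 * (b / (4 * l)) = b / l * (1 / 2) := by field_simp; norm_num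
      rw [this]
      have : b / l ≤ b := div_le_self hb0.le hlR
      linarith
    calc Real.exp (2 * t) * β ≤ Real.exp (2 * t) * Real.exp (-b) := by gcongr
      _ = Real.exp (2 * t - b) := by rw [← Real.exp_add]; rfl
      _ < 1 := Real.exp_lt_one_iff.2 (by linarith)
  have hηc : Real.exp t * v * (1 / 2) < 1 := by
    calc Real.exp t * v * (1 / 2) = Real.exp t * (v / 2) := by ring
      _ ≤ Real.exp (2 * t) * β := by
        have : Real.exp t ≤ Real.exp (2 * t) := Real.exp_le_exp.2 (by linarith)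
        gcongr
      _ < 1 := ee
  have hxc : ω / v < 1 := by
    rw [div_lt_one hv0, ← hexpg, hω]
    exact Real.exp_lt_exp.2 (by linarith)
  have hxΛc : ω / v * (v * m₁) < 1 := by
    have e1 : ω / v * (v * m₁) = ω * m₁ := by field_simp
    rw [e1, hm₁, mul_max_of_nonneg _ _ hω0.le]
    refine max_lt ?_ ?_
    · have e2 : ρ ^ (y ^ 2) = Real.exp (-(y ^ 2 * lr)) := by
        rw [Real.rpow_def_of_pos hρ0, hlr]
        congr 1
        ring
      rw [hω, e2, ← Real.exp_add]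
      refine Real.exp_lt_one_iff.2 ?_
      have e3 : y ^ 2 * lr = b ^ 2 * lr / 64 / l ^ 2 := by
        rw [hy, ht]
        field_simp
        ring
      rw [e3]
      have e4 : c₀ / l ^ 2 < b ^ 2 * lr / 64 / l ^ 2 := by
        refine div_lt_div_of_pos_right ?_ (by positivity)
        have : 0 < b ^ 2 * lr := by positivity
        linarith
      linarith
    · calc ω * (Real.exp t * v * (1 / 2)) ≤ Real.exp t * (Real.exp t * v * (1 / 2)) := by gcongr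
        _ = Real.exp (2 * t) * (v / 2) := by
          have e1 : Real.exp (2 * t) = Real.exp t * Real.exp t := by
            rw [← Real.exp_add]
            congr 1
            ring
          rw [e1]
          ring
        _ ≤ Real.exp (2 * t) * β := by gcongr
        _ < 1 := ee
  have hsc : ∀ s ∈ Finset.Icc 2 l,
      (ω / v) ^ s * (Real.exp t * v) ^ (s - 1) * (v * Real.exp (2 * t) * β) < 1 := by
    intro s hs
    obtain ⟨hs1, hs2⟩ := Finset.mem_Icc.1 hs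
    have e1 : (ω / v) ^ s * (Real.exp t * v) ^ (s - 1) * (v * Real.exp (2 * t) * β) =
        ω ^ s * Real.exp t ^ (s - 1) * Real.exp (2 * t) * β := by
      have : v ^ s = v ^ (s - 1) * v := by
        rw [← pow_succ]
        congr 1
        omega
      rw [div_pow, mul_pow, this]
      field_simp
    rw [e1]
    have e2 : Real.exp t ^ s * Real.exp t ^ (s - 1) * Real.exp (2 * t) * Real.exp (-b) =
        Real.exp ((2 * s + 1) * t - b) := by
      rw [← Real.exp_nat_mul, ← Real.exp_nat_mul, ← Real.exp_add, ← Real.exp_add, ← Real.exp_add]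
      congr 1
      have : ((s - 1 : ℕ) : ℝ) = s - 1 := by
        rw [Nat.cast_sub (by omega)]
        simp
      rw [this]
      ring
    have hsl : (s : ℝ) ≤ l := by exact_mod_cast hs2
    calc ω ^ s * Real.exp t ^ (s - 1) * Real.exp (2 * t) * β ≤
        Real.exp t ^ s * Real.exp t ^ (s - 1) * Real.exp (2 * t) * Real.exp (-b) := by gcongr
      _ = Real.exp ((2 * s + 1) * t - b) := e2
      _ < 1 := by
        refine Real.exp_lt_one_iff.2 ?_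
        have h2 : (2 * s + 1) * t ≤ (3 * l) * t := by
          refine mul_le_mul_of_nonneg_right ?_ ht0.le
          linarith
        have h3 : (3 * l) * t = 3 / 4 * b := by
          rw [ht]
          field_simp
        linarith
  have hall : ∀ᶠ n : ℕ in atTop, ∀ s ∈ Finset.Icc 2 l,
      2 ^ (2 ^ s) * (((2 : ℝ) ^ ⌊κ * n⌋₊ * 2 ^ l / 2 ^ n) ^ s *
        (3 * VV n ⌈y ^ 2 * n⌉₊ y * VV n ⌈δ * n⌉₊ (q ^ 2)) ^ (s - 1) *
        (VV n ⌈δ * n⌉₊ (q ^ 2) * θ ^ ⌈z ^ 2 * n⌉₊ +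
      2 * ((2 * VV n ⌈y ^ 2 * n⌉₊ y * VV n ⌈δ * n⌉₊ (q ^ 2) / 2 ^ n) *
        (3 * VV n ⌈y ^ 2 * n⌉₊ y * VV n ⌈δ * n⌉₊ (q ^ 2))) + VV n ⌈z ^ 2 * n⌉₊ z)) ≤
        1 / (4 * l) := by
    rw [Finset.eventually_all]
    intro s hs
    exact ((((gx.pow s).mul (gS.pow (s - 1))).mul gE).const_mul
      (by positivity : (0 : ℝ) ≤ 2 ^ (2 ^ s))).ev (by positivity) (hsc s hs) (by positivity)
  have hm0 : 0 ≤ m₁ := by
    rw [hm₁]
    exact le_max_of_le_left (by positivity)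
  filter_upwards [hall, (gx.mul gΛ).ev (by positivity) hxΛc (by positivity : (0 : ℝ) < 1 / (4 * l)),
    gx.ev (by positivity) hxc (by positivity : (0 : ℝ) < 1 / l),
    gη.ev (by positivity) hηc one_pos,
    eventually_ge_atTop ⌈((l : ℝ) + 2) * (2 * l * Real.log 2) / c₀⌉₊] with n a1 a2 a3 a4 a5
  have key := finite n ⌈δ * n⌉₊ ⌈y ^ 2 * n⌉₊ ⌈z ^ 2 * n⌉₊ ⌊κ * n⌋₊ l q y z hq0 hq1.le hy0 hy1 hz0 hz1
    _ _ _ _ _ _ _ rfl rfl rfl a4 rfl rfl rfl rfl (by rw [← hρ]; exact a2)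
    (by rw [← hθ]; exact a1) a3 hl
  refine le_trans ?_ key
  -- the exponents
  have h2 : κ * n - 1 ≤ ⌊κ * n⌋₊ := (Nat.sub_one_lt_floor _).le
  have h3 : κ = 1 - Real.binEntropy δ / Real.log 2 + c₀ / l ^ 2 / Real.log 2 := by
    rw [hκ, Real.logb, Real.log_div (by positivity) hv0.ne', Real.log_mul (by norm_num) hω0.ne', hω,
      Real.log_exp, ← hg, hgH]
    field_simp
    ring
  have h4 : ((l : ℝ) + 2) * (2 * l * Real.log 2) / c₀ ≤ n :=
    (Nat.le_ceil _).trans (by exact_mod_cast a5)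
  rw [div_le_iff₀ hc0] at h4
  have h5 : (1 - Real.binEntropy δ / Real.log 2 + c₀ / (2 * Real.log 2) / l ^ 2) * (l * n) ≤
      (κ * n - 1) * l - 2 := by
    have e1 : (κ * n - 1) * l - 2 - (1 - Real.binEntropy δ / Real.log 2 +
        c₀ / (2 * Real.log 2) / l ^ 2) * (l * n) =
        (n * c₀ - ((l : ℝ) + 2) * (2 * l * Real.log 2)) / (2 * l * Real.log 2) := by
      rw [h3]
      field_simp
      ring
    have e2 : 0 ≤ (n * c₀ - ((l : ℝ) + 2) * (2 * l * Real.log 2)) / (2 * l * Real.log 2) :=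
      div_nonneg (by linarith) (by positivity)
    linarith
  calc (2 : ℝ) ^ ((1 - Real.binEntropy δ / Real.log 2 + c₀ / (2 * Real.log 2) / l ^ 2) * (l * n)) ≤
      (2 : ℝ) ^ ((⌊κ * n⌋₊ : ℝ) * l - 2) := by
        refine Real.rpow_le_rpow_of_exponent_le (by norm_num) (h5.trans ?_)
        have : (κ * n - 1) * l ≤ ⌊κ * n⌋₊ * l := mul_le_mul_of_nonneg_right h2 hl0.le
        linarith
    _ = ((2 : ℝ) ^ ⌊κ * n⌋₊) ^ l / 4 := by
        rw [Real.rpow_sub (by norm_num), Real.rpow_mul (by norm_num), Real.rpow_natCast,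
          Real.rpow_natCast]
        norm_num

end Pool.Agent.N381.LH
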